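import Pool.Agent.H458.PD.Uni
import Pool.Agent.H458.BM.Two
import Pool.Graph.R_pool_sql_team_seeded_63374d34.N844.QF.Hf
import Pool.Graph.R_pool_sql_team_seeded_63374d34.N844.QR.Ex

/-!
# The Bloch-Kato conjecture on Abel-Jacobi maps over infinitely many fields at the same time

Let `F` be ANY number field and `g ≥ 1`. We consider ALL polynomials
`f = x ^ (2 g + 1) + a_(2 g - 1) x ^ (2 g - 1) + ... + a_0` with coefficients in the ring of integers of `F`,
ordered by the height: `|σ a_i| ≤ B ^ (2 g + 1 - i)` for all embeddings `σ : F → ℂ`. Let `J_f` be the Jacobian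
of the curve `y ^ 2 = f(x)` of genus `g` (for `g = 1` these are all the elliptic curves over `F`).

For `f` and a finite set `Q` of primes of `F` let `C(f, Q)` be the class of all the finite Galois extensions
`M / F` of 2-power degree in which all the primes over `2` and all `v ∈ Q` split completely and in which only
primes are ramified modulo which `f` is irreducible (no condition at the infinite places).

Theorem. Let `N / F` be any finite Galois extension of 2-power degree in which the primes over `2` split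
completely and `T` a finite set of primes of `F`. There are a finite set `Q` of primes, disjoint from `T` and
prime to `2`, and a set `S` of polynomials of positive lower density (for large `B` it contains at least `c`
times the number of all `f` of height at most `B`, `c > 0`), such that all `f ∈ S` are irreducible modulo the
primes over `2` and modulo all `v ∈ T`, `F` and `N` belong to the class `C(f, Q)`, and the following holds for
all `f ∈ S` and ALL the fields `M` in the class `C(f, Q)`.

* `J_f(M) = 0`, the 2-primary part of the Tate-Shafarevich group of `J_f` over `M` is zero and the Bloch-Kato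
  Selmer group `H ^ 1_f (M, V_2 J_f)` is zero. So the 2-adic Abel-Jacobi map of the polarized motive
  `h ^ 1(J_f)(1)` over `M` is an isomorphism onto the Bloch-Kato Selmer group (both sides are zero).

* Let `X ⊂ P ^ (2 g + 1)` be ANY intersection of two quadrics of dimension `2 g - 1`, the base locus of a pencil
  `x A - z B` of symmetric matrices of size `2 g + 2` over the ring of integers of `M` with

    `(-1) ^ (g + 1) det (x A - z B) = m ^ 2 z F(x, z)`, `m ≠ 0`, `F(x, z)` the homogeneous form of `f`.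

  `X` is smooth over all the fields in which `2 m` is not zero and `f` is separable and the number of its
  points over the finite ones is computed. By Reid and Donagi `H ^ (2 g - 1)(X, ℚ_2(g)) = V_2 J_f` and
  `CH ^ g(X)_0 ⊗ ℚ_2 = J_f(M) ⊗ ℚ_2`. (These facts are not formalized here; by Faltings the numbers of points
  determine the representation.) So the 2-adic Abel-Jacobi map of the polarized motive `h ^ (2 g - 1)(X)(g)`
  over `M` is an isomorphism onto the Bloch-Kato Selmer group. For every `f` there is such an `X` over `F` with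
  `m = 1` which contains a linear subspace of dimension `g - 1`.

The motives `h ^ 1(J_f)(1) ⊗ ρ` over `F` for all the representations `ρ` of the Galois groups `Gal(M / F)`,
`M` in the class `C(f, Q)`, are the factors of the motives induced from `h ^ 1(J_f)(1)` over `M`; so all
their 2-adic Bloch-Kato Selmer groups and Chow groups of the kernel of the cycle map are zero.

The group `J(L)` is the Picard group of `L[x, y] / (y ^ 2 - f)` (library `N874/Jac/Def.lean`). The elements of
`V_2 J` are the sequences of the points `x_n` of 2-power order over the separable closure with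
`x_(n + 1) ^ 2 = x_n` (`J` is written multiplicatively). For all finite places `v` the local subgroup
`H ^ 1_f (M_v, V_2 J)` is the image of `J(M_v) ⊗ ℚ_2` (Bloch and Kato, Example 3.11), which is the definition
here.

What is new. The library theorem MP_787500_nt.AllQuadricPencils treats the base field `F` alone (the set of
the `f` with trivial Selmer group over `F`), MP_009fd8_ag.JacobiansOverTwoExtensions one field `M`, totally
real over `ℚ`, at a time, with a set of the `f` which depends on `M`. Here one set `S` of positive lower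
density works for all the fields of the classes `C(f, Q)` (also not totally real) over every number field `F`,
for all the motives `h ^ 1(J_f)(1) ⊗ ρ` and all the pencils over all the `M`; moreover `J_f(M) = 0` (not only
of odd order). The theorem on the 2-Selmer groups over all the `M` is that of our
MP_ac3185_nt.EveryFieldEveryGenus and MP_1d384c_nt.JacobiansTwoExtensions (projects RC, PD); the passage from
`J(M)` and the Tate-Shafarevich group to `H ^ 1_f` is by `N844/QF/Hf.lean` of the library, the pencils are by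
`N844/QR/{Pen,Ex}.lean` (helper844 of an earlier run).
-/

set_option autoImplicit false
set_option linter.all false

namespace Pool.Agent.Results.MP_009fd8_ag.AbelJacobiInTowers

open Finset Matrix Polynomial Filter IsDedekindDomain NumberField
open scoped LinearAlgebra.Projectivization
open Pool.Agent.N874.Jac (J mapJ Gal IsCocycle ShaTwoTrivialReal)
open scoped Classical

/-! ### The Bloch-Kato Selmer group of `V_2 J` -/

section basic

variable {K : Type} [Field K] (F : K[X]) {Ω : Type} [Field Ω] [Algebra K Ω]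

/-- The elements of `V_2 J`, `J` the Jacobian of `y ^ 2 = F(x)` (written multiplicatively), `Ω` a separable
closure of `K`: the sequences of points `x_n ∈ J(Ω)` of 2-power order with `x_(n + 1) ^ 2 = x_n`. -/
def IsV (x : ℕ → J F Ω) : Prop := ∀ n, x (n + 1) ^ 2 = x n ∧ ∃ m : ℕ, x n ^ 2 ^ m = 1

/-- the continuous cocycles with values in `V_2 J` -/
def VCocycleIn (c : (Ω ≃ₐ[K] Ω) → ℕ → J F Ω) : Prop :=
  (∀ σ, IsV F (c σ)) ∧ ∀ n, IsCocycle F fun σ => c σ n

/-- the coboundaries with values in `V_2 J` -/
def VCoboundaryIn (c : (Ω ≃ₐ[K] Ω) → ℕ → J F Ω) : Prop :=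
  ∃ x : ℕ → J F Ω, IsV F x ∧ ∀ σ n, c σ n = mapJ F σ.toAlgHom (x n) / x n

variable (E : Type) {Ω' : Type} [Field E] [Field Ω'] [Algebra E Ω'] [Algebra K E] [Algebra K Ω']
  [IsScalarTower K E Ω']

/-- For an embedding `ι : Ω → Ω'` and a point `Q ∈ J(Ω')` the restriction of the cocycle `c` with values in
`J(Ω)` to the automorphisms of `Ω'` over `E` is `τ ↦ τ Q / Q`. -/
def Restricts (ι : Ω →ₐ[K] Ω') (Q : J F Ω') (c : (Ω ≃ₐ[K] Ω) → J F Ω) : Prop :=
  ∀ (τ : Ω' ≃ₐ[E] Ω') (σ : Ω ≃ₐ[K] Ω), (∀ x, τ (ι x) = ι (σ x)) →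
    mapJ F ι (c σ) = mapJ F (τ.toAlgHom.restrictScalars K) Q / Q

variable (Ω')

/-- The restriction of the class of `c` to `E` is in the image of `J(E) ⊗ ℚ_2 → H ^ 1 (E, V_2 J)`, `Ω'` a
separable closure of `E`: there are an embedding `Ω → Ω'` and points `Q_n ∈ J(Ω')` with
`Q_(n + 1) ^ 2 = Q_n` and `c(τ)_n = τ Q_n / Q_n` for all automorphisms `τ` of `Ω'` over `E`. -/
def KummerIn (c : (Ω ≃ₐ[K] Ω) → ℕ → J F Ω) : Prop :=
  ∃ (ι : Ω →ₐ[K] Ω') (Q : ℕ → J F Ω'), (∀ n, Q (n + 1) ^ 2 = Q n) ∧
    ∀ n, Restricts F E ι (Q n) fun σ => c σ n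

end basic

section selmer

variable {K : Type} [Field K] (F : K[X])

/-- sequences of functions on the absolute Galois group of `K` with values in `J(K^sep)` -/
abbrev VCochain : Type := Gal K → ℕ → J F (SeparableClosure K)

variable {F}

/-- the continuous cocycles on the absolute Galois group with values in `V_2 J` -/
def VCocycle (c : VCochain F) : Prop := VCocycleIn F c

/-- the coboundaries with values in `V_2 J` -/
def VCoboundary (c : VCochain F) : Prop := VCoboundaryIn F c

/-- the restriction of the class of `c` to `E` is in the image of `J(E) ⊗ ℚ_2` -/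
def Kummer (E : Type) [Field E] [Algebra K E] (c : VCochain F) : Prop :=
  KummerIn F E (SeparableClosure E) c

/-- the class of `c` is in the image of `J(K_v) ⊗ ℚ_2` for the completions `K_v` of `K` at all maximal
ideals `v` of the Dedekind ring `R` with field of fractions `K` -/
def KummerAtPrimes (R : Type) [CommRing R] [IsDedekindDomain R] [Algebra R K] [IsFractionRing R K]
    (c : VCochain F) : Prop := ∀ v : HeightOneSpectrum R, Kummer (v.adicCompletion K) c

variable (F)

/-- For a number field `K` with the ring of integers `R`: the Bloch-Kato Selmer group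
`H ^ 1_f (K, V_2 J)` is zero, `J` the Jacobian of `y ^ 2 = F(x)`. Every continuous cocycle with values in
`V_2 J` whose class is in the image of `J(K_v) ⊗ ℚ_2` at all finite places `v` is a coboundary. -/
def SelmerZero (R : Type) [CommRing R] [IsDedekindDomain R] [Algebra R K] [IsFractionRing R K] :
    Prop := ∀ c : VCochain F, VCocycle c → KummerAtPrimes R c → VCoboundary c

end selmer

/-! ### The intersections of two quadrics -/

section pencils

variable {D : Type} [CommRing D]

/-- the homogeneous form `F(x, z)` of degree `2 g + 1` of `f` -/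
def form (g : ℕ) (f : D[X]) (x z : D) : D :=
  ∑ i ∈ range (2 * g + 2), f.coeff i * x ^ i * z ^ (2 * g + 1 - i)

/-- the matrices of size `2 g + 2` over `D` -/
abbrev Mat (g : ℕ) (D : Type) : Type := Matrix (Fin (2 * g + 2)) (Fin (2 * g + 2)) D

/-- the quadratic form of a matrix -/
def qf {N : ℕ} (A : Matrix (Fin N) (Fin N) D) (y : Fin N → D) : D := y ⬝ᵥ (A *ᵥ y)

/-- the pencils over `D` with discriminant `m ^ 2 z F(x, z)` -/
structure IsPencil (g : ℕ) (f : D[X]) (m : D) (A B : Mat g D) : Prop where
  symA : A.IsSymm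
  symB : B.IsSymm
  disc : ∀ x z : D, (-1) ^ (g + 1) * (x • A - z • B).det = m ^ 2 * (z * form g f x z)

/-- the linear subspace `y_g = ... = y_(2 g + 1) = 0` of dimension `g - 1` is contained in the base locus -/
def ContainsPlane {g : ℕ} (A B : Mat g D) : Prop :=
  ∀ y : Fin (2 * g + 2) → D, (∀ i : Fin (2 * g + 2), g ≤ (i : ℕ) → y i = 0) →
    qf A y = 0 ∧ qf B y = 0

end pencils

section fields

variable {E : Type} [Field E]

/-- the quadratic forms of `A` and `B` are zero at `y` -/
def OnX {N : ℕ} (A B : Matrix (Fin N) (Fin N) E) (y : Fin N → E) : Prop := qf A y = 0 ∧ qf B y = 0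

/-- the base locus `X` of the pencil is smooth (Jacobian criterion at the points over `E`) -/
def Smooth {N : ℕ} (A B : Matrix (Fin N) (Fin N) E) : Prop :=
  ∀ y : Fin N → E, y ≠ 0 → OnX A B y → LinearIndependent E ![A *ᵥ y, B *ᵥ y]

/-- the number of the points over `E` of the base locus `X` of the pencil -/
noncomputable def numP {N : ℕ} (A B : Matrix (Fin N) (Fin N) E) : ℕ :=
  Nat.card {P : ℙ E (Fin N → E) // OnX A B P.rep}

/-- the number of the points over `E` of the affine curve `y ^ 2 = F(x)` -/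
noncomputable def numC (F : E[X]) : ℕ := Nat.card {P : E × E // P.2 ^ 2 = F.eval P.1}

/-- The number of points of `X` over the finite field `E`: `H ^ (2 g - 1) (X) = H ^ 1 (C) (1 - g)` where `C`
is the curve `y ^ 2 = F(x)`, and the other cohomology is that of a projective space of dimension
`2 g - 1`. -/
def PointCount {g : ℕ} (F : E[X]) (A B : Mat g E) : Prop :=
  (numP A B : ℤ) = ∑ i ∈ range (2 * g), (Nat.card E : ℤ) ^ i +
    (Nat.card E : ℤ) ^ (g - 1) * ((numC F : ℤ) - Nat.card E)

end fields

/-- For all pencils over the ring `D` with discriminant `m ^ 2 z F(x, z)` the base locus is smooth over all the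
fields `E` over `D` in which `2 m` is not zero and `f` is separable, and its number of points is given by
`PointCount` if `E` is finite. -/
def AllPencils {D : Type} [CommRing D] (g : ℕ) (f : D[X]) : Prop :=
  ∀ (m : D) (A B : Mat g D), IsPencil g f m A B →
    ∀ (E : Type) [Field E] (φ : D →+* E), (2 : E) ≠ 0 → φ m ≠ 0 → (f.map φ).Separable →
      Smooth (A.map φ) (B.map φ) ∧ (Finite E → PointCount (f.map φ) (A.map φ) (B.map φ))

section defs

variable {F : Type} [Field F] [NumberField F]

/-- `f` is a monic polynomial of degree `2 g + 1` with integral coefficients, without term of degree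
`2 g`. -/
structure IsOdd (g : ℕ) (f : (𝓞 F)[X]) : Prop where
  monic : f.Monic
  degree : f.natDegree = 2 * g + 1
  trace : f.coeff (2 * g) = 0

variable (F) in
/-- The polynomials `f` of height at most `B`: all conjugates of the coefficient of degree `j` are at most
`B ^ (2 g + 1 - j)` in absolute value. -/
def Polys (g B : ℕ) : Set (𝓞 F)[X] :=
  {f | IsOdd g f ∧ ∀ j ≤ 2 * g, ∀ σ : F →+* ℂ, ‖σ (f.coeff j : F)‖ ≤ (B : ℝ) ^ (2 * g + 1 - j)}

/-- `f` is irreducible modulo `v`. -/
def IrreducibleMod (f : (𝓞 F)[X]) (v : HeightOneSpectrum (𝓞 F)) : Prop :=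
  Irreducible (f.map (Ideal.Quotient.mk v.asIdeal))

/-- `M / F` is unramified at `v`. -/
def Unramified (v : HeightOneSpectrum (𝓞 F)) (M : Type) [Field M] [NumberField M]
    [Algebra F M] : Prop :=
  ∀ w : HeightOneSpectrum (𝓞 M), v.asIdeal.map (algebraMap (𝓞 F) (𝓞 M)) ≤ w.asIdeal →
    ¬ v.asIdeal.map (algebraMap (𝓞 F) (𝓞 M)) ≤ w.asIdeal ^ 2

/-- `v` splits completely in `M`: it is unramified and all integers of `M` are congruent to integers of
`F` modulo every prime over `v`. -/
def SplitsCompletely (v : HeightOneSpectrum (𝓞 F)) (M : Type) [Field M] [NumberField M]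
    [Algebra F M] : Prop :=
  Unramified v M ∧
  ∀ w : HeightOneSpectrum (𝓞 M), v.asIdeal.map (algebraMap (𝓞 F) (𝓞 M)) ≤ w.asIdeal →
    ∀ y : 𝓞 M, ∃ c : 𝓞 F, y - algebraMap (𝓞 F) (𝓞 M) c ∈ w.asIdeal

/-- `M / F` is a Galois extension of 2-power degree in which the primes over `2` split completely: it is
unramified at these primes, and `M` has an embedding over `F` in the completion of `F` at every prime over
`2`. -/
structure TwoSplit (F M : Type) [Field F] [NumberField F] [Field M] [NumberField M] [Algebra F M] :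
    Prop where
  galois : IsGalois F M
  degree : ∃ n : ℕ, Module.finrank F M = 2 ^ n
  two : ∀ v : HeightOneSpectrum (𝓞 F), (2 : 𝓞 F) ∈ v.asIdeal →
    Nonempty (M →ₐ[F] v.adicCompletion F)
  unramified : ∀ v : HeightOneSpectrum (𝓞 F), (2 : 𝓞 F) ∈ v.asIdeal → Unramified v M

/-- `M` belongs to the class `C(f, Q)`. -/
structure InClass (Q : Finset (HeightOneSpectrum (𝓞 F))) (f : (𝓞 F)[X]) (M : Type) [Field M]
    [NumberField M] [Algebra F M] : Prop where
  twoSplit : TwoSplit F M
  split : ∀ v ∈ Q, SplitsCompletely v M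
  ramified : ∀ v : HeightOneSpectrum (𝓞 F), Unramified v M ∨ IrreducibleMod f v

/-- The polynomial `f` over the extension `M` of `F`. -/
noncomputable def polyOver (M : Type) [Field M] [Algebra F M] (f : (𝓞 F)[X]) : M[X] :=
  (f.map (algebraMap (𝓞 F) F)).map (algebraMap F M)

/-- The polynomial `f` over the ring of integers of the extension `M` of `F`. -/
noncomputable def polyInt (M : Type) [Field M] [Algebra F M] (f : (𝓞 F)[X]) : (𝓞 M)[X] :=
  f.map (algebraMap (𝓞 F) (𝓞 M))

/-- The conjecture for `p = 2` over `M` and all the pencils which belong to `f`: `J_f(M) = 0`, the 2-primary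
part of the Tate-Shafarevich group of `J_f` over `M` is zero, `H ^ 1_f (M, V_2 J_f) = 0`, and all the pencils
over the ring of integers of `M` with discriminant `m ^ 2 z F(x, z)` have smooth base locus with the number of
points given by `PointCount`. -/
structure BlochKato (g : ℕ) (M : Type) [Field M] [NumberField M] [Algebra F M] (f : (𝓞 F)[X]) :
    Prop where
  points : Subsingleton (J (polyOver M f) M)
  sha : ShaTwoTrivialReal (polyOver M f) (𝓞 M)
  selmer : SelmerZero (polyOver M f) (𝓞 M)
  pencils : AllPencils g (polyInt M f)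

/-- The properties of the polynomials of the set `S`. -/
structure Good (g : ℕ) (Q T : Finset (HeightOneSpectrum (𝓞 F))) (N : Type) [Field N] [NumberField N]
    [Algebra F N] (f : (𝓞 F)[X]) : Prop where
  irreducible : Irreducible (f.map (algebraMap (𝓞 F) F))
  two : ∀ v : HeightOneSpectrum (𝓞 F), (2 : 𝓞 F) ∈ v.asIdeal → IrreducibleMod f v
  mod : ∀ v ∈ T, IrreducibleMod f v
  base : InClass Q f F
  inClass : InClass Q f N
  blochKato : ∀ (M : Type) [Field M] [NumberField M] [Algebra F M], InClass Q f M → BlochKato g M f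

end defs

section pf

variable {F : Type} [Field F] [NumberField F]

theorem spl_from {M : Type} [Field M] [NumberField M] [Algebra F M] {v : HeightOneSpectrum (𝓞 F)}
    (hv : SplitsCompletely v M) : Pool.Agent.N874.TF.Spl v M := by
  refine ⟨Pool.Agent.N874.TF.unr_of hv.1, fun w hw y => ?_⟩
  obtain ⟨y, rfl⟩ := Ideal.Quotient.mk_surjective y
  obtain ⟨c, hc⟩ := hv.2 w (Ideal.map_le_iff_le_comap.2 hw) y
  exact ⟨c, (Ideal.Quotient.eq.2 hc).symm⟩

theorem selmer_of {g : ℕ} {Q : Finset (HeightOneSpectrum (𝓞 F))} {f : (𝓞 F)[X]} (hm : f.Monic)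
    (hd : f.natDegree = 2 * g + 1) (h2 : Irreducible (Pool.Agent.N783.PF.fF f))
    (a4 : Pool.Agent.H458.RC.Uni {𝔭 | ∃ v ∈ Q, 𝔭 = v.asIdeal} f f)
    (M : Type) [Field M] [NumberField M] [Algebra F M] (hM : InClass Q f M) :
    Pool.Agent.N874.Jac.UniquelyTwoDivisible (polyOver M f) ∧ ShaTwoTrivialReal (polyOver M f) (𝓞 M) := by
  haveI := hM.twoSplit.galois
  obtain ⟨n, hn⟩ := hM.twoSplit.degree
  have hsel := a4 M (fun v hv => by
      obtain ⟨σ⟩ := hM.twoSplit.two v hv
      exact ⟨σ, fun y => σ.commutes y⟩) n hn (by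
      rintro v ⟨v', hv', h⟩
      rw [HeightOneSpectrum.ext h]
      exact spl_from (hM.split v' hv')) (by
      intro v hv
      rcases hM.ramified v with h | h
      · exact absurd (Pool.Agent.N874.TF.unr_of h) hv
      · exact h)
  exact Pool.Agent.N874.TF.genuineF hn hm (by rw [hd]; exact odd_two_mul_add_one g) h2 hsel

theorem base_mem {Q : Finset (HeightOneSpectrum (𝓞 F))} {f : (𝓞 F)[X]} : InClass Q f F := by
  have hunr : ∀ v : HeightOneSpectrum (𝓞 F), Unramified v F := by
    intro v w h1 h2
    have h3 : v.asIdeal ≤ w.asIdeal := fun a ha => Ideal.map_le_iff_le_comap.1 h1 ha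
    have h4 : v.asIdeal ≤ w.asIdeal ^ 2 := fun a ha => Ideal.map_le_iff_le_comap.1 h2 ha
    have h5 : v.asIdeal = w.asIdeal := v.isMaximal.eq_of_le w.isPrime.ne_top h3
    rw [h5] at h4
    obtain ⟨π, h6, h7⟩ := Ideal.exists_mem_pow_notMem_pow_succ w.asIdeal w.ne_bot w.isPrime.ne_top 1
    rw [pow_one] at h6
    exact h7 (h4 h6)
  refine ⟨⟨inferInstance, ⟨0, by simp⟩, fun v _ => ⟨Algebra.ofId F _⟩, fun v _ => hunr v⟩,
    fun v _ => ⟨hunr v, fun w _ y => ⟨y, ?_⟩⟩, fun v => Or.inl (hunr v)⟩
  have h0 : y - y ∈ w.asIdeal := by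
    rw [sub_self]
    exact zero_mem _
  exact h0

/-- The properties of the polynomials which are used. -/
structure Use (g : ℕ) (Q : Finset (HeightOneSpectrum (𝓞 F))) (f : (𝓞 F)[X]) : Prop where
  monic : f.Monic
  degree : f.natDegree = 2 * g + 1
  irr : Irreducible (Pool.Agent.N783.PF.fF f)
  uni : Pool.Agent.H458.RC.Uni {𝔭 | ∃ v ∈ Q, 𝔭 = v.asIdeal} f f
  reg : ∀ v : HeightOneSpectrum (𝓞 F), (2 : 𝓞 F) ∈ v.asIdeal → Pool.Agent.H458.PD.RegAt v f

theorem selmerZero_of {g : ℕ} {Q : Finset (HeightOneSpectrum (𝓞 F))} {f : (𝓞 F)[X]}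
    (h : Use g Q f) (M : Type) [Field M] [NumberField M] [Algebra F M] (hM : InClass Q f M) :
    SelmerZero (polyOver M f) (𝓞 M) := by
  intro c hc hl
  obtain ⟨hdiv, hsha⟩ := selmer_of h.monic h.degree h.irr h.uni M hM
  have hPm : (polyOver M f).Monic := (h.monic.map _).map _
  have hPs : (polyOver M f).Separable := h.irr.separable.map
  have hPd : (polyOver M f).natDegree = 2 * g + 1 := by
    unfold polyOver
    rw [(h.monic.map _).natDegree_map, h.monic.natDegree_map, h.degree]
  have hPo : Odd (polyOver M f).natDegree := by rw [hPd]; exact odd_two_mul_add_one g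
  exact Pool.Agent.N844.QF.h1f_zero (F := polyOver M f) two_ne_zero hPm hPs hPo (𝓞 M) hdiv hsha c
    (fun n => (hc.2 n).1) hc.1 (fun σ τ n => (hc.2 n).2 σ τ) (fun v n => by
      obtain ⟨ι, Q, -, hQ⟩ := hl v
      exact ⟨ι, Q n, hQ n⟩)

theorem allPencils_of (L : Type) [Field L] [NumberField L] {g : ℕ} (hg : 1 ≤ g) {f : (𝓞 L)[X]}
    (hf : f.Monic) (hd : f.natDegree = 2 * g + 1) : AllPencils g f := by
  haveI : Infinite (𝓞 L) := CharZero.infinite _
  intro m A B h E _ φ hE hm hs
  have h' : Pool.Agent.N844.QR.IsPen g f m A B := ⟨h.symA, h.symB, h.disc⟩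
  exact ⟨fun y hy h6 => h'.smooth φ hf hd hm hs hy h6.1 h6.2,
    fun _ => h'.num hg hf hd E φ hE hm hs⟩

theorem plane_of {g : ℕ} {f : (𝓞 F)[X]} (hf : f.Monic) (hd : f.natDegree = 2 * g + 1) :
    ∃ A B : Mat g (𝓞 F), IsPencil g f 1 A B ∧ ContainsPlane A B := by
  haveI : Infinite (𝓞 F) := CharZero.infinite _
  have h' := Pool.Agent.N844.QR.ex_pen hf hd
  refine ⟨Pool.Agent.N844.QR.eA hf hd, Pool.Agent.N844.QR.eB hf hd,
    ⟨h'.symA, h'.symB, h'.disc⟩, fun y hy => ?_⟩
  have key : ∀ A : Mat g (𝓞 F),
      (∀ i j : Fin (2 * g + 2), (i : ℕ) < g → (j : ℕ) < g → A i j = 0) → qf A y = 0 := by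
    intro A hA
    unfold qf
    simp only [dotProduct, mulVec]
    refine Finset.sum_eq_zero fun i _ => ?_
    rcases Nat.lt_or_ge (i : ℕ) g with hi | hi
    · rw [Finset.sum_eq_zero, mul_zero]
      intro j _
      rcases Nat.lt_or_ge (j : ℕ) g with hj | hj
      · rw [hA i j hi hj, zero_mul]
      · rw [hy j hj, mul_zero]
    · rw [hy i hi, zero_mul]
  exact ⟨key _ fun i j hi hj => (Pool.Agent.N844.QR.e_zero hf hd i j hi hj).1,
    key _ fun i j hi hj => (Pool.Agent.N844.QR.e_zero hf hd i j hi hj).2⟩

theorem blochKato_of {g : ℕ} (hg : 1 ≤ g) {Q : Finset (HeightOneSpectrum (𝓞 F))} {f : (𝓞 F)[X]}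
    (h : Use g Q f) (M : Type) [Field M] [NumberField M] [Algebra F M] (hM : InClass Q f M) :
    BlochKato g M f := by
  obtain ⟨v₀, hv₀⟩ := Pool.Agent.H458.PD.exists_two F
  obtain ⟨σ⟩ := hM.twoSplit.two v₀ hv₀
  obtain ⟨hdiv, hsha⟩ := selmer_of h.monic h.degree h.irr h.uni M hM
  obtain ⟨-, -, hJ, -⟩ := Pool.Agent.H458.PD.glo_ring σ hv₀ (h.reg v₀ hv₀) h.monic h.degree
    h.irr.separable (P := polyOver M f) rfl hdiv
  refine ⟨hJ, hsha, selmerZero_of h M hM, allPencils_of M hg (h.monic.map _) ?_⟩
  unfold polyInt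
  rw [h.monic.natDegree_map, h.degree]

end pf

/-- **The Bloch-Kato conjecture for `p = 2` in towers.** For every number field `F`, every `g ≥ 1`, every
Galois extension `N / F` of 2-power degree in which the primes over `2` split completely and every finite set
`T` of primes of `F` there are a finite set `Q` of primes, disjoint from `T` and prime to `2`, and a set `S` of
polynomials of positive lower density such that `F` and `N` belong to the class `C(f, Q)` for all `f ∈ S` and
such that for all `f ∈ S` and all `M` in the class `C(f, Q)`: `J_f(M) = 0`, the 2-primary part of the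
Tate-Shafarevich group of `J_f` over `M` and the Bloch-Kato Selmer group `H ^ 1_f (M, V_2 J_f)` are zero, and
all the pencils over the ring of integers of `M` with discriminant `m ^ 2 z F(x, z)` have smooth base locus
(and the expected number of points over the finite fields in which `2 m` is not zero and `f` is separable).
For every `f` there is a pencil over the ring of integers of `F` with `m = 1` whose base locus contains a
linear subspace of dimension `g - 1`. -/
theorem result (F : Type) [Field F] [NumberField F] (g : ℕ) (hg : 1 ≤ g)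
    (N : Type) [Field N] [NumberField N] [Algebra F N] (hN : TwoSplit F N)
    (T : Finset (HeightOneSpectrum (𝓞 F))) :
    (∀ B : ℕ, (Polys F g B).Finite) ∧
    (∀ f : (𝓞 F)[X], IsOdd g f → ∃ A B : Mat g (𝓞 F), IsPencil g f 1 A B ∧ ContainsPlane A B) ∧
    ∃ (Q : Finset (HeightOneSpectrum (𝓞 F))) (S : Set (𝓞 F)[X]), Disjoint Q T ∧
      (∀ v ∈ Q, (2 : 𝓞 F) ∉ v.asIdeal) ∧ (∀ f ∈ S, IsOdd g f ∧ Good g Q T N f) ∧
      ∃ c : ℝ, 0 < c ∧ ∀ᶠ B : ℕ in atTop, 0 < (Polys F g B).ncard ∧
        c * ((Polys F g B).ncard : ℝ) ≤ ({f ∈ Polys F g B | f ∈ S}.ncard : ℝ) := by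
  have heq : ∀ B, Polys F g B = {f : (𝓞 F)[X] | Pool.Agent.N783.PF.Ht g B f} := by
    intro B
    ext f
    exact ⟨fun h => ⟨h.1.monic, h.1.degree, h.1.trace, fun j hj σ => h.2 j hj σ⟩,
      fun h => ⟨⟨h.mon, h.deg, h.tr⟩, fun j hj σ => h.ht j hj σ⟩⟩
  obtain ⟨f₂, hf₂m, hf₂d, hf₂t, hf₂i, hf₂r⟩ := Pool.Agent.H458.BM.ex5 F g hg
  obtain ⟨T', hT'⟩ := Pool.Agent.H458.RC.ram_fin F N
  obtain ⟨Q, hQ1, hQ2, hQ3, c, hc, B₀, hB₀⟩ := Pool.Agent.H458.RC.main F N hg (T ∪ T') 4
    (by norm_num) f₂ hf₂m hf₂d hf₂t hf₂i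
  have hfin : ∀ B : ℕ, (Polys F g B).Finite := by
    intro B
    have h1 := (hB₀ (max B B₀) (le_max_right _ _)).1
    rw [← heq] at h1
    refine h1.subset fun f hf => ⟨hf.1, fun j hj σ => ?_⟩
    refine (hf.2 j hj σ).trans ?_
    exact pow_le_pow_left₀ (Nat.cast_nonneg _) (by exact_mod_cast le_max_left B B₀) _
  refine ⟨hfin, fun f hf => plane_of hf.monic hf.degree, Q, {f | IsOdd g f ∧ Good g Q T N f}, ?_,
    hQ2, fun f hf => hf, c, hc, ?_⟩
  · exact Finset.disjoint_of_subset_right Finset.subset_union_left hQ1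
  filter_upwards [eventually_ge_atTop B₀] with B hB
  obtain ⟨hHt, hle⟩ := hB₀ B hB
  have hsub : {f : (𝓞 F)[X] | Pool.Agent.N783.PF.Ht g B f ∧
      Irreducible (Pool.Agent.N783.PF.fF f) ∧
      (∀ v : HeightOneSpectrum (𝓞 F), (2 : 𝓞 F) ∈ v.asIdeal →
        Irreducible (Pool.Agent.N783.PF.rd v.asIdeal f)) ∧
      (∀ v ∈ T ∪ T', Irreducible (Pool.Agent.N783.PF.rd v.asIdeal f)) ∧
      Pool.Agent.N783.PF.Cg (Pool.Agent.N783.PF.sp F 4) f f₂ ∧ Pool.Agent.H458.RC.Mono f ∧
      Pool.Agent.N874.TF.Tws g {𝔭 | ∃ v ∈ Q, 𝔭 = v.asIdeal} f ∧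
      Pool.Agent.H458.RC.Uni {𝔭 | ∃ v ∈ Q, 𝔭 = v.asIdeal} f f ∧
      Pool.Agent.N783.PF.Min g f} ⊆ {f ∈ Polys F g B | f ∈ {f | IsOdd g f ∧ Good g Q T N f}} := by
    rintro f ⟨h1, h2, a1, a2, a3, a4, -, a6, -⟩
    have hR : ∀ v₀ : HeightOneSpectrum (𝓞 F), (2 : 𝓞 F) ∈ v₀.asIdeal →
        Pool.Agent.H458.PD.RegAt v₀ f := by
      intro v₀ hv₀
      refine (hf₂r v₀ hv₀).congr fun j => ?_
      have h5 := a3 j
      have h6 : (4 : 𝓞 F) ∈ v₀.asIdeal ^ 2 := by
        have h7 := Ideal.mul_mem_mul hv₀ hv₀
        rw [← pow_two] at h7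
        norm_num at h7
        exact h7
      refine (Ideal.span_singleton_le_iff_mem _).2 (by exact_mod_cast h6) h5
    have hu : Use g Q f := ⟨h1.mon, h1.deg, h2, a6, hR⟩
    have hodd : IsOdd g f := ⟨h1.mon, h1.deg, h1.tr⟩
    refine ⟨⟨hodd, fun j hj σ => h1.ht j hj σ⟩, hodd, ?_⟩
    refine ⟨h2, a1, fun v hv => a2 v (Finset.mem_union_left _ hv), base_mem,
      ⟨hN, fun v hv => ?_, fun v => ?_⟩, fun M _ _ _ hM => blochKato_of hg hu M hM⟩
    · have h3 := hQ3 v hv
      exact ⟨fun w hw => Pool.Agent.H458.RC.unr_to h3.1 w hw,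
        fun w hw y => Pool.Agent.H458.RC.spl_to h3 w hw y⟩
    · by_cases hv : v ∈ T'
      · exact Or.inr (a2 v (Finset.mem_union_right _ hv))
      · exact Or.inl (hT' v hv)
  have h1 := Set.ncard_le_ncard hsub ((hfin B).subset fun f hf => hf.1)
  refine ⟨?_, ?_⟩
  · rw [Set.ncard_pos (hfin B)]
    refine ⟨X ^ (2 * g + 1), ⟨monic_X_pow _, natDegree_X_pow _, ?_⟩, fun j hj σ => ?_⟩
    · rw [coeff_X_pow, if_neg (by omega)]
    · rw [coeff_X_pow, if_neg (by omega)]
      have e0 : ((0 : 𝓞 F) : F) = 0 := rfl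
      rw [e0, map_zero, norm_zero]
      positivity
  · rw [← heq] at hle
    exact hle.trans (by exact_mod_cast h1)

end Pool.Agent.Results.MP_009fd8_ag.AbelJacobiInTowers
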