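import Mathlib
import Pool.Agent.H451.OP.Def
import Pool.Agent.H451.OP.Def3
import Pool.Agent.H451.OP.P10

/-!
# The Abel-Jacobi maps at `p = 3` of the cubic twists of every product of diagonal cubics

Let `K = ℚ(√-3)` and `X = V × Y_1 × ⋯ × Y_r` with any `r`, where `V : ∑ a_i x_i ^ 3 = 0` is a diagonal cubic
in `m = 3, 5` or `7` variables (a curve, a threefold or a fivefold) and `Y_t : ∑ b_{t,i} y_i ^ 3 = 0` is a
diagonal cubic in `n_t = 4` or `2` variables (a cubic surface, or the spectrum of
`K[y] / (b_{t,1} y ^ 3 + b_{t,2})`, so that a product with it is the base change to a Kummer extension of `K`).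
The coefficients are ANY elements of `𝓞 K` prime to `3`.

The twist `X_D` of `X` by `D` has `D a_(i₀)` in the place of `a_(i₀)` (`twist`): the coordinate `x_(i₀)` makes
`V` a cyclic cover of degree three of the projective space of dimension `m - 2`, and `V_D` is its cubic twist.
The admissible `D` (`All`) are ALL the squarefree elements of `𝓞 K` which are prime to `3` and to the
coefficients, by the norm.

For every `i` the motive `M_i = h^(2 i - 1)(X_D)(i)` is a polarized Chow motive of weight `-1`. By classical work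
(Weil, Shioda and Katsura; not in Lean) it is the sum of the `h¹(E_{S,τ})(1)` over the classes of codimension
`i`, `E_{S,τ} : y ^ 2 + B y = x ^ 3`, `B = DX (twist a i₀ D) b S τ`. So `CH(M_i)^0 = ⊕ E_{S,τ}(K) ⊗ ℚ`,
`H¹_f(K, M_{i,3}) = ⊕ H¹_f(K, V_3(E_{S,τ}))`, and the Abel-Jacobi map is the sum of the Kummer maps. The
corresponding identity of the numbers of points over all the finite fields is proved here (`MotX`).

We prove that for a share of exactly `(9 - n) / 9 * p_0 ^ N` of ALL the twists the Abel-Jacobi maps at `3` of all the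
`M_i` are isomorphisms onto the Selmer groups of Bloch and Kato, because both are zero (`IsoAtThree`): the
groups `E_{S,τ}(K)` are finite, the `3`-primary parts of their Tate-Shafarevich groups are trivial, and
`H¹_f(K, V_3(E_{S,τ})) = 0`. Here `p_0 = 0.639…`, `N = classes` is the number of the classes of the parameters
modulo cubes and `n = cells` the number of their classes modulo nine. For example more than
`8 / 9 * 0.639 > 56.8 %` of all the curves, threefolds and fivefolds
`x_1 ^ 3 + ⋯ + x_(m-1) ^ 3 + D x_m ^ 3 = 0` have this property.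

The prime `3` is ramified in `K` and divides the number of the roots of unity of `K`, and `X_D` has bad
reduction at it.

`H¹_f(K, V_p(W))` (`H1f`, library) is the group of the classes of the continuous cocycles with values in
`V_p(W)` whose restrictions to all the completions of `K` are in the image of the Kummer map; by Bloch and
Kato this is their condition.
-/

set_option autoImplicit false

namespace Pool.Agent.Results.MP_009fd8_ag.CubicTwistsAtThreeH451

open NumberField IsDedekindDomain Pool.Agent.H451.XP Pool.Agent.H451.OP.Tw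
open Pool.Agent.H451.TB (prob)
open scoped Classical

/-- **The Abel-Jacobi maps at `3` of the cubic twists of every product of diagonal cubics, in all the
codimensions.** -/
theorem result (K : Type) [Field K] [NumberField K] [IsCyclotomicExtension {3} ℚ K] (m : ℕ)
    (hm : m = 3 ∨ m = 5 ∨ m = 7) (r : ℕ) (n : Fin r → ℕ) (hn : ∀ t, n t = 2 ∨ n t = 4)
    (a : Fin m → 𝓞 K) (b : ∀ t : Fin r, Fin (n t) → 𝓞 K)
    (ha : ∀ i, ¬ (3 : ℤ) ∣ Algebra.norm ℤ (a i))
    (hb : ∀ t i, ¬ (3 : ℤ) ∣ Algebra.norm ℤ (b t i)) (i₀ : Fin m) :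
    -- (1) the motive of the twists
    (∀ D : 𝓞 K, MotX (twist a i₀ D) b) ∧
    -- (2) the admissible `D`
    ((∀ X : ℕ, (All a b X).Finite) ∧ ∃ c : ℝ, 0 < c ∧ ∃ X₀ : ℕ, ∀ X : ℕ, X₀ ≤ X →
      c * X ≤ ((All a b X).ncard : ℝ)) ∧
    -- (3) the numbers of the classes
    (cells a b i₀ ≤ 9 ∧ cells a b i₀ ≤ classes a b i₀ ∧ 1 ≤ classes a b i₀ ∧
      classes a b i₀ ≤ m.choose ((m - 3) / 2) * ∏ t, (1 + (n t).choose (n t / 2))) ∧
    -- (4) the share of the class
    Filter.Tendsto (fun X : ℕ => ((Cls a b i₀ X).ncard : ℝ) / ((All a b X).ncard : ℝ)) Filter.atTop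
      (nhds ((9 - cells a b i₀) / 9)) ∧
    -- (5) the set of the twists with trivial groups, and its share
    (∃ G : Set (𝓞 K), (∀ D ∈ G, (∃ X : ℕ, D ∈ Cls a b i₀ X) ∧ IsoAtThree (twist a i₀ D) b) ∧
      Filter.Tendsto (fun X : ℕ => ({D | D ∈ All a b X ∧ D ∈ G}.ncard : ℝ) /
        ((All a b X).ncard : ℝ)) Filter.atTop
        (nhds ((9 - cells a b i₀) / 9 * prob 0 ^ classes a b i₀))) ∧
    -- (6) the share of the twists with isomorphic Abel-Jacobi maps
    ∃ X₀ : ℕ, ∀ X : ℕ, X₀ ≤ X →
      (9 - cells a b i₀) / 9 * 0.639 ^ classes a b i₀ * ((All a b X).ncard : ℝ) ≤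
        ({D | D ∈ All a b X ∧ IsoAtThree (twist a i₀ D) b}.ncard : ℝ) :=
  Pool.Agent.H451.OP.final_OP3 K m hm r n hn a b ha hb i₀

end Pool.Agent.Results.MP_009fd8_ag.CubicTwistsAtThreeH451
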