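import Mathlib
import Pool.Agent.H848.BKD.All
import Pool.Agent.H848.BKD.Odd
import Pool.Agent.H848.SF.App
import Pool.Agent.H848.FL.Num
import Pool.Agent.H848.FL.Mono

/-!
# The law of the dimensions of the Bloch–Kato Selmer groups of all even weights in the family of all the
# quadratic twists `E_D`, `D ≡ 1 mod 4`, of `X_0(49)` over `K = ℚ(√-7)`

`K = ℚ(√-7)` with ring of integers `ℤ[ω]`, `ω² = ω - 2`; `(2) = (ω) (1 - ω)`. Let `D ∈ ℤ[ω]`,
`D ≡ 1 mod 4`, `√-7 D` squarefree, and let `E_D` be the quadratic twist by `D` of `X_0(49)`, an elliptic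
curve over `K` with complex multiplication by `ℤ[ω]`. The group `Gal(ℚ̄/K)` acts on its `2`-adic Tate
module by two characters `κ`, `κ'`. For even `k > 0` the representation
`V_k = ℚ_2(κ^k κ'^(1-k)) ⊕ ℚ_2(κ^(1-k) κ'^k)`, contained in `H^{2k-1}(E_D^{2k-1}, ℚ_2(k))`, is the
`2`-adic realization of a polarized motive of weight `-1`.

For even `k` the reduction of `κ^k κ'^(1-k)` modulo `8` is not the one of `κ`, and the Selmer groups are
not bounded by the descent matrix of `E_D`. We prove:

* For every `D`, the dimensions of the Bloch–Kato Selmer groups over `K` of both characters are at most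
  `r'(D)`, for all even `k > 0`; `r'(D)` is the corank of an explicit matrix over `𝔽₂`: the matrix of the
  quadratic residue symbols between the primes dividing `√-7 D`, bordered by their symbols with the two
  primes above `2`. Over `L = K(√d_1, …, √d_n)` the dimensions are at most the sum of the `r'(D_T)`, `D_T`
  the squarefree part of `D ∏_{i ∈ T} d_i`, over all subsets `T` of `{1, …, n}`.
* `r'(D) ≤ r(D) + 1`, `r(D)` the corank of the descent matrix of `E_D`, and
  `2 ^ rank E_D(K) · #Ш(E_D/K)[2] = 4 ^ r(D)`. So, if `E_D(K)` is finite and `Ш(E_D/K)[2^∞] = 0`, then the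
  dimensions are at most one.
* The law: when all the `D` are ordered by their norms, the proportion of the `D` with `r'(D) = k` tends to
  `λ(k) = ∏_{i ≥ 1} (1 - 2^{-i}) / (2^{k²} ∏_{i ≤ k} (1 - 2^{-i})²)`, the probability of Cohen and Lenstra
  (`0.288…`, `0.577…`, `0.128…`, …). Let `d_1, …, d_n` be independent, and choose for each `T` one of the
  numbers `r(D_T)`, `r'(D_T)`: the `2 ^ n` chosen numbers are independent and have the law `λ`. So for each
  `m` we obtain a lower bound for the proportion of the `D` such that the Selmer groups of all the even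
  weights have dimension at most `m` over `L`; it tends to one as `m` grows.
* For every `r`, among the primes `π ≡ 1 mod 4`, ordered by their norms, the proportion of the `π` with
  `r'(D π) = r` is `N_r / 2 ^ (#P + 2)` with an integer `N_r`, `P` the set of the primes dividing `√-7 D`.
  The number `N_0` is odd.
-/

set_option autoImplicit false

namespace Pool.Agent.Results.MP_009fd8_ag.EvenWeightsLaw

open WeierstrassCurve Filter Topology
open scoped Classical

/-! ### The curves -/

/-- An algebraic closure of `ℚ`. -/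
abbrev QBar : Type := AlgebraicClosure ℚ

/-- The ring of integers `ℤ[ω]`, `ω² = ω - 2`, of `ℚ(√-7)`. -/
abbrev OK : Type := QuadraticAlgebra ℤ (-2) 1

/-- The field `K = ℚ(w)`. It is `ℚ(√-7)` if `w² = w - 2`. -/
noncomputable abbrev K (w : QBar) : IntermediateField ℚ QBar := IntermediateField.adjoin ℚ {w}

/-- `w` as an element of `K`. -/
noncomputable def gen (w : QBar) : K w := ⟨w, IntermediateField.mem_adjoin_simple_self ℚ w⟩

/-- The element `a + b ω` of `ℤ[ω]` as an element of the field `L`, `w` being the image of `ω`. -/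
def emb {L : Type} [Ring L] (w : L) (z : OK) : L := z.re + z.im * w

/-- The curve `y² = x³ + 3 (1 - w) d x² + w⁴ d² x`. -/
def curve {F : Type} [Field F] (w d : F) : WeierstrassCurve F :=
  ⟨0, 3 * (1 - w) * d, 0, w ^ 4 * d ^ 2, 0⟩

/-- The curve `E_D : y² = x³ + 3 (1 - ω) D x² + ω⁴ D² x` over `K`. -/
noncomputable def ED (w : QBar) (D : OK) : WeierstrassCurve (K w) := curve (gen w) (emb (gen w) D)

/-- The absolute Galois group of `K`. -/
abbrev Gal (w : QBar) : Type := QBar ≃ₐ[K w] QBar

/-- The subgroups of the Galois group. -/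
abbrev Sub (w : QBar) : Type := Subgroup (Gal w)

/-- The characters of the Galois group with values in the units of `ℤ_2`. -/
abbrev Chr (w : QBar) : Type := Gal w →* ℤ_[2]ˣ

/-- The values of the character `χ`, in `ℤ_2`. -/
noncomputable def zv {w : QBar} (χ : Chr w) (σ : Gal w) : ℤ_[2] := ((χ σ : ℤ_[2]ˣ) : ℤ_[2])

/-- The values of the character `χ`, in `ℚ_2`. -/
noncomputable def qv {w : QBar} (χ : Chr w) (σ : Gal w) : ℚ_[2] := ((zv χ σ : ℤ_[2]) : ℚ_[2])

/-- The group `E_D(ℚ̄)`. -/
abbrev Pts (w : QBar) (D : OK) : Type := ((ED w D).toAffine.baseChange QBar).Point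

/-- The action of the Galois group on `E_D(ℚ̄)`. -/
noncomputable def act {w : QBar} {D : OK} (σ : Gal w) : Pts w D →+ Pts w D :=
  Affine.Point.map (W' := (ED w D).toAffine) (S := K w) (F := QBar) (K := QBar) σ.toAlgHom

/-- The sequences `x` and `y` are elements of the `2`-adic Tate module of the abelian group `A`, and
they are a basis of it. -/
structure IsBasis {A : Type} [AddCommGroup A] (x y : ℕ → A) : Prop where
  zero : x 0 = 0 ∧ y 0 = 0
  double : ∀ n, x (n + 1) + x (n + 1) = x n ∧ y (n + 1) + y (n + 1) = y n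
  span : ∀ (n : ℕ) (P : A), (2 ^ n : ℤ) • P = 0 → ∃ a b : ℤ, P = a • x n + b • y n
  indep : ∀ (n : ℕ) (a b : ℤ), a • x n + b • y n = 0 → (2 ^ n : ℤ) ∣ a ∧ (2 ^ n : ℤ) ∣ b

/-- The endomorphism `f` of the abelian group `A` acts on the element `x` of its `2`-adic Tate module
as the multiplication by the `2`-adic integer `z`. -/
def ActsBy {A : Type} [AddCommGroup A] (f : A →+ A) (x : ℕ → A) (z : ℤ_[2]) : Prop :=
  ∀ (n : ℕ) (k : ℤ), (2 : ℤ_[2]) ^ n ∣ z - k → f (x n) = k • x n

/-! ### The Selmer groups -/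

/-- The decomposition group of the place of `K` given by the embedding `ι` of `ℚ̄`. -/
def Dec {w : QBar} {p : ℕ} [Fact p.Prime] (ι : QBar →ₐ[ℚ] PadicAlgCl p) : Set (Gal w) :=
  {σ | ∃ τ : PadicAlgCl p ≃ₐ[ℚ_[p]] PadicAlgCl p, ∀ x, τ (ι x) = ι (σ x)}

/-- Its inertia group: the automorphisms which are trivial on the residue field. -/
def Inr {w : QBar} {p : ℕ} [Fact p.Prime] (ι : QBar →ₐ[ℚ] PadicAlgCl p) : Set (Gal w) :=
  {σ | ∃ τ : PadicAlgCl p ≃ₐ[ℚ_[p]] PadicAlgCl p, (∀ x, τ (ι x) = ι (σ x)) ∧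
    ∀ z : PadicAlgCl p, ‖z‖ ≤ 1 → ‖τ z - z‖ < 1}

/-- The restriction of the function `c` to `H` is a continuous cocycle with values in `ℚ_2(χ)`. -/
structure IsCocycle {w : QBar} (H : Sub w) (χ : Chr w) (c : Gal w → ℚ_[2]) : Prop where
  cont : ContinuousOn c H
  mul : ∀ σ ∈ H, ∀ τ ∈ H, c (σ * τ) = c σ + qv χ σ * c τ

/-- The restriction of `c` to the intersection of `S` and `H` is a coboundary. -/
def TrivialOn {w : QBar} (H : Sub w) (χ : Chr w) (S : Set (Gal w)) (c : Gal w → ℚ_[2]) : Prop :=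
  ∃ y : ℚ_[2], ∀ σ ∈ S, σ ∈ H → c σ = (qv χ σ - 1) * y

/-- The Bloch–Kato conditions over the field `L` fixed by `H`, for a character `χ` whose Hodge–Tate
weight is positive at one of the two places of `K` above `2` and not positive at the other one, which
is the one that divides `v`: the class is trivial on the inertia groups of the places of `L` prime to
`2` and on the decomposition groups of the places of `L` which divide `v`. -/
structure IsSelmer {w : QBar} (v : QBar) (H : Sub w) (χ : Chr w) (c : Gal w → ℚ_[2]) : Prop where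
  odd : ∀ (p : ℕ) [Fact p.Prime] (ι : QBar →ₐ[ℚ] PadicAlgCl p), p ≠ 2 → TrivialOn H χ (Inr ι) c
  two : ∀ ι : QBar →ₐ[ℚ] PadicAlgCl 2, ‖ι v‖ < 1 → TrivialOn H χ (Dec ι) c

/-- The dimension of the Selmer group of `ℚ_2(χ)` over the field fixed by `H` is at most `m`: any `m + 1`
classes are linearly dependent. -/
def SelmerDimLE {w : QBar} (v : QBar) (H : Sub w) (χ : Chr w) (m : ℕ) : Prop :=
  ∀ c : Fin (m + 1) → Gal w → ℚ_[2], (∀ i, IsCocycle H χ (c i) ∧ IsSelmer v H χ (c i)) →
    ∃ a : Fin (m + 1) → ℚ_[2], a ≠ 0 ∧ TrivialOn H χ Set.univ (∑ i, a i • c i)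

/-- The character `κ ^ j κ' ^ (1 - j)`. -/
noncomputable def chi {w : QBar} (κ κ' : Chr w) (j : ℤ) : Chr w := κ ^ j * κ' ^ (1 - j)

/-- `κ` has order at most two on the inertia groups of the places that do not divide `v`. -/
def FiniteOff {w : QBar} (v : QBar) (κ : Chr w) : Prop :=
  ∀ (p : ℕ) [Fact p.Prime] (ι : QBar →ₐ[ℚ] PadicAlgCl p), ‖ι v‖ = 1 → ∀ σ ∈ Inr ι, zv κ σ ^ 2 = 1

/-- The character `κ` is continuous and the Galois group acts by it on the element `x` of the Tate
module. -/
def Eigen {w : QBar} {D : OK} (κ : Chr w) (x : ℕ → Pts w D) : Prop :=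
  Continuous (zv κ) ∧ ∀ σ : Gal w, ActsBy (act σ) x (zv κ σ)

/-- The Galois group acts on the `2`-adic Tate module of `E_D` through the sum of the continuous
characters `κ`, `κ'`; the first one has order at most two on the inertia groups of the places that
do not divide `ω`, and the second one on those of the places that do not divide `1 - ω`. So `κ` has
the Hodge–Tate weights `1` at `ω` and `0` at `1 - ω`, and `κ'` has the weights `0` at `ω` and `1` at
`1 - ω`. -/
def TateModule {w : QBar} (D : OK) (κ κ' : Chr w) : Prop :=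
  (∃ x y : ℕ → Pts w D, IsBasis x y ∧ Eigen κ x ∧ Eigen κ' y) ∧
    FiniteOff w κ ∧ FiniteOff (1 - w) κ'

/-! ### The twists of `X_0(49)` -/

/-- The element `ω` of `ℤ[ω]`; `√-7 = 2 ω - 1`. -/
def om : OK := ⟨0, 1⟩

/-- The parameters: `D = 1 mod 4` and `√-7 D` is squarefree. -/
def Adm (D : OK) : Prop := Squarefree ((2 * om - 1) * D) ∧ (4 : OK) ∣ D - 1

/-- The element `-√-7 D` of `ℤ[ω]`. -/
def tw (D : OK) : OK := -((2 * om - 1) * D)

/-- The curve `y² + x y = x³ - ((3 d + 1) / 4) x² - 2 d² x - d³`, the quadratic twist by `d` of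
`X_0(49) : y² + x y = x³ - x² - 2 x - 1`. -/
def twist {F : Type} [Field F] (d : F) : WeierstrassCurve F :=
  ⟨1, -((3 * d + 1) / 4), 0, -2 * d ^ 2, -d ^ 3⟩

/-- The curve `E_D` over `K`. -/
noncomputable def E (w : QBar) (D : OK) : WeierstrassCurve (K w) := twist (emb (gen w) D)

/-- The curves are isomorphic: they differ by a change of variables. -/
def Iso {F : Type} [Field F] (W W' : WeierstrassCurve F) : Prop :=
  ∃ C : VariableChange F, C • W = W'

/-- The field `K` is a number field. -/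
instance isNumberField (w : QBar) : NumberField (K w) where
  to_charZero := inferInstance
  to_finiteDimensional := IntermediateField.adjoin.finiteDimensional
    (Algebra.IsIntegral.isIntegral w)

/-- `E(F)` is finite and the 2-primary part of `Ш(E/F)` is trivial. -/
def NoTwoPart {F : Type} [Field F] [NumberField F] (E : WeierstrassCurve F) : Prop :=
  Finite E.toAffine.Point ∧
    ∀ (n : ℕ) (x : Pool.Agent.TH841.NF.D.Sha E), 2 ^ n • x = 0 → x = 0

/-- The group `E(F)` is finitely generated, `Ш(E/F)[2]` is finite and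
`2 ^ rank E(F) · #Ш(E/F)[2] = 4 ^ r`. -/
def TwoDescent {F : Type} [Field F] [NumberField F] (E : WeierstrassCurve F) (r : ℕ) : Prop :=
  Module.Finite ℤ E.toAffine.Point ∧
    Finite {x : Pool.Agent.TH841.NF.D.Sha E // 2 • x = 0} ∧
    2 ^ Module.finrank ℤ E.toAffine.Point *
      Nat.card {x : Pool.Agent.TH841.NF.D.Sha E // 2 • x = 0} = 4 ^ r

/-- `0` if `x` is a square modulo `p` and `1` if it is not. -/
noncomputable def symbol (p x : OK) : ZMod 2 := if ∃ y : OK, p ∣ y ^ 2 - x then 0 else 1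

/-- `P` is the set of the prime divisors of `√-7 D` (one generator `≡ 1 mod ω²` for each). -/
def IsPrimes (D : OK) (P : Finset OK) : Prop :=
  ∀ p : OK, p ∈ P ↔ Prime p ∧ p ∣ (2 * om - 1) * D ∧ om ^ 2 ∣ p - 1

/-- The matrix over `𝔽₂`, with rows and columns indexed by the primes: the entry at `(p, q)`, `p ≠ q`,
is the symbol of `p` modulo `q`; the entry at `(p, p)` is the sum of the other entries of the row
and of the symbol of `-1` modulo `p`. -/
noncomputable def matrix (P : Finset OK) : Matrix P P (ZMod 2) :=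
  Matrix.of fun p q => if p = q then symbol (p : OK) (-1) + ∑ r ∈ P.erase (p : OK), symbol r (p : OK)
    else symbol (q : OK) (p : OK)

/-- The corank of the matrix of `D` is `r`. -/
def Corank (D : OK) (r : ℕ) : Prop := ∃ P : Finset OK, IsPrimes D P ∧ (matrix P).rank + r = P.card

/-- The class of `D` at `ω`. -/
noncomputable def classA (P : Finset OK) : ZMod 2 := ∑ p ∈ P, symbol p (-om)

/-- The class of `D` at `1 - ω`. -/
noncomputable def classB (P : Finset OK) : ZMod 2 := ∑ p ∈ P, symbol p (om - 1)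

/-- The matrix of the even weights, over `𝔽₂`. The rows and columns are indexed by the primes and one
more index; the entry at `(p, q)`, `p ≠ q`, is the symbol of `p` modulo `q`, the entry at `(p, p)` is the
sum of the other entries of the row `p` at the primes, and the border consists of the symbols of `-ω`
and of `ω - 1` modulo the primes, modified by the symbols of `-1`. -/
noncomputable def evenMatrix (P : Finset OK) : Matrix (Option P) (Option P) (ZMod 2) :=
  fun i k => match i, k with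
    | none, none => 1 + classA P * classB P
    | none, some q => symbol (q : OK) (-om) + classA P * symbol (q : OK) (-1)
    | some p, none => symbol (p : OK) (om - 1) + classB P * symbol (p : OK) (-1)
    | some p, some q => if (p : OK) = q then ∑ r ∈ P.erase (p : OK), symbol r (p : OK) else
        symbol (q : OK) (p : OK)

/-- The number `r'(D)`: the difference of the number of the primes and of the rank of the matrix of the
even weights is `r`. (The matrix has one more column than there are primes, and the vector `1` at the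
primes, `0` at the last index, is always in the kernel.) -/
def EvenCorank (D : OK) (r : ℕ) : Prop :=
  ∃ P : Finset OK, IsPrimes D P ∧ (evenMatrix P).rank + r = P.card

/-- The Galois group of `ℚ̄` over the field `L = K(s_1, …, s_n)`. -/
noncomputable def GalL (w : QBar) {n : ℕ} (s : Fin n → QBar) : Sub w :=
  (IntermediateField.adjoin (K w) (Set.range s)).fixingSubgroup

/-- The number of the kind `b`: `r'(M) = r` if `b` is true and `r(M) = r` if it is false. -/
def KindCorank (b : Bool) (M : OK) (r : ℕ) : Prop := (b = true → EvenCorank M r) ∧ (b = false → Corank M r)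

/-- For every set `T`, `D ∏_{i ∈ T} d_i` is up to a nonzero square a parameter `M`, and the number of `M`
of the kind `b T` is `r T`. -/
def Coranks (D : OK) {n : ℕ} (d : Fin n → OK) (b : Finset (Fin n) → Bool) (r : Finset (Fin n) → ℕ) :
    Prop :=
  ∀ T : Finset (Fin n), ∃ M z : OK, z ≠ 0 ∧ Adm M ∧ KindCorank (b T) M (r T) ∧
    D * ∏ i ∈ T, d i = M * z ^ 2

/-- The dimensions of the Selmer groups over `L = K(s_1, …, s_n)` of `ℚ_2(κ^k κ'^(1-k))` and
`ℚ_2(κ^(1-k) κ'^k)` are at most `m`, for all even `k > 0`. -/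
def EvenWeights {w : QBar} (κ κ' : Chr w) {n : ℕ} (s : Fin n → QBar) (m : ℕ) : Prop :=
  ∀ k : ℤ, 0 < k → Even k → SelmerDimLE (1 - w) (GalL w s) (chi κ κ' k) m ∧
    SelmerDimLE w (GalL w s) (chi κ κ' (1 - k)) m

/-- The proportion of the primes `1 + 4 x` with the property, among those of norm `≤ X`. -/
noncomputable def proportion (G : OK → Prop) (X : ℕ) : ℝ :=
  ({x : OK | (QuadraticAlgebra.norm (1 + 4 * x)).natAbs ≤ X ∧ Prime (1 + 4 * x) ∧ G x}.ncard : ℝ) /
    ({x : OK | (QuadraticAlgebra.norm (1 + 4 * x)).natAbs ≤ X ∧ Prime (1 + 4 * x)}.ncard : ℝ)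

/-- The elements `s_i` are square roots of the `d_i`. -/
def AreRoots (w : QBar) {n : ℕ} (d : Fin n → OK) (s : Fin n → QBar) : Prop :=
  ∀ i, s i ^ 2 = emb w (d i)

/-- The Galois group acts on the `2`-adic Tate module by `κ`, `κ'`, and for all `d_1, …, d_n` and all even
`k > 0` the dimensions of the Selmer groups over `K(√d_1, …, √d_n)` (so over `K`, for `n = 0`) of
`ℚ_2(κ^k κ'^(1-k))` and `ℚ_2(κ^(1-k) κ'^k)` are at most the sum of the `r'` of the twists
`D ∏_{i ∈ T} d_i`. -/
def Bounded (w : QBar) (D : OK) : Prop := ∃ κ κ' : Chr w, TateModule (tw D) κ κ' ∧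
  ∀ (n : ℕ) (d : Fin n → OK) (r : Finset (Fin n) → ℕ), Coranks D d (fun _ => true) r →
    ∀ s : Fin n → QBar, AreRoots w d s → EvenWeights κ κ' s (∑ T, r T)

/-- The curve `E_D` is isomorphic to the curve `ED w (tw D)`, which is elliptic; if the corank is `r`, then
`2 ^ rank E_D(K) · #Ш(E_D/K)[2] = 4 ^ r`; and `E_D(K)` is finite and `Ш(E_D/K)[2^∞] = 0` if and only if the
corank is zero. -/
def Descent (w : QBar) (D : OK) : Prop := Iso (E w D) (ED w (tw D)) ∧ (ED w (tw D)).IsElliptic ∧
  (∀ r : ℕ, Corank D r → TwoDescent (E w D) r) ∧ (NoTwoPart (E w D) ↔ Corank D 0)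

/-- `r'(D) ≤ r(D) + 1`, `r(D)` being the corank of the descent matrix. -/
def Compare (D : OK) : Prop := ∀ r r' : ℕ, Corank D r → EvenCorank D r' → r' ≤ r + 1

/-- For every `r`, the proportion of the primes `π = 1 + 4 x` with `r'(D π) = r` is `N r / 2 ^ (#P + 2)`,
and `N 0` is odd. -/
def Distribution (D : OK) (P : Finset OK) : Prop := ∃ N : ℕ → ℕ, Odd (N 0) ∧
  ∀ r : ℕ, Tendsto (proportion fun x => EvenCorank (D * (1 + 4 * x)) r) atTop
    (𝓝 ((N r : ℝ) / 2 ^ (P.card + 2)))

/-- The number of the parameters `D` of norm at most `X`, prime to `m`, with the property. -/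
noncomputable def count (m : OK) (G : OK → Prop) (X : ℕ) : ℕ :=
  {D : OK | (QuadraticAlgebra.norm D).natAbs ≤ X ∧ Adm D ∧ IsCoprime D m ∧ G D}.ncard

/-- The natural density of the parameters with the property among all the parameters prime to `m`. -/
def Density (m : OK) (G : OK → Prop) (y : ℝ) : Prop :=
  Tendsto (fun X : ℕ => (count m G X : ℝ) / count m (fun _ => True) X) atTop (𝓝 y)

/-- The lower density of the parameters with the property is at least `y`. -/
def AtLeast (m : OK) (G : OK → Prop) (y : ℝ) : Prop :=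
  ∀ ε : ℝ, 0 < ε → ∀ᶠ X : ℕ in atTop, y - ε ≤ (count m G X : ℝ) / count m (fun _ => True) X

/-- `d_1, …, d_n` are parameters, and no product of some of them is a square. -/
def Independent {n : ℕ} (d : Fin n → OK) : Prop :=
  (∀ i, Adm (d i)) ∧ ∀ T : Finset (Fin n), T.Nonempty → ¬ IsSquare (∏ i ∈ T, d i)

/-- The law `c / (2 ^ (k²) ∏_{i ≤ k} (1 - 2 ^ (-i))²)`, `c = ∏_{i ≥ 1} (1 - 2 ^ (-i))`. -/
noncomputable def law (k : ℕ) : ℝ := (∏' i : ℕ, (1 - (1 / 2 : ℝ) ^ (i + 1))) /
  (2 ^ (k ^ 2) * (∏ i ∈ Finset.range k, (1 - (1 / 2 : ℝ) ^ (i + 1))) ^ 2)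

/-- The law of the sum of the coranks of the `2 ^ n` twists: the probability of `m`. -/
noncomputable def sumLaw (n m : ℕ) : ℝ :=
  ∑ r ∈ Finset.piAntidiag (Finset.univ : Finset (Finset (Fin n))) m, ∏ T, law (r T)

/-- All the Selmer groups of even weights over `K(√d_1, …, √d_n)` have dimension at most `m`. -/
def AllBounded (w : QBar) {n : ℕ} (d : Fin n → OK) (m : ℕ) (D : OK) : Prop :=
  ∃ κ κ' : Chr w, TateModule (tw D) κ κ' ∧ ∀ s : Fin n → QBar, AreRoots w d s → EvenWeights κ κ' s m

/-- The laws for the twists by the products of the `d_i`: the joint law of the numbers of the twists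
`D ∏_{i ∈ T} d_i`, of any kinds, is the product; the law of the sum of the `r'`; the Selmer groups of all
the even weights over `K(√d_1, …, √d_n)`. -/
def Laws {n : ℕ} (d : Fin n → OK) : Prop :=
  (∀ (b : Finset (Fin n) → Bool) (r : Finset (Fin n) → ℕ),
    Density (∏ i, d i) (fun D => Coranks D d b r) (∏ T, law (r T))) ∧
  (∀ m : ℕ, Density (∏ i, d i) (fun D => ∃ r, Coranks D d (fun _ => true) r ∧ ∑ T, r T = m) (sumLaw n m)) ∧
  ∀ (w : QBar) (m : ℕ), w ^ 2 = w - 2 →
    AtLeast (∏ i, d i) (AllBounded w d m) (∑ j ∈ Finset.range (m + 1), sumLaw n j)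

/-! ### The proof -/

section proof

open Pool.Agent.Y676.IS (Cu some_congr)
open Pool.Agent.R384 (WD ca cb em)

variable {w : QBar} (hw : w ^ 2 = w - 2) {D : OK}

lemma gen_sq : gen w ^ 2 = gen w - 2 ↔ w ^ 2 = w - 2 := by
  rw [Subtype.ext_iff]
  rfl

lemma emb_eq (z : OK) : ((emb (gen w) z : K w) : QBar) = em hw z := by
  unfold emb
  rw [Pool.Agent.R384.em_apply]
  push_cast
  rfl

lemma curve_eq : (ED w D).toAffine.baseChange QBar = Cu (ca w (em hw D)) (cb w (em hw D)) := by
  have h1 : algebraMap (K w) QBar (gen w) = w := rfl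
  have h2 : algebraMap (K w) QBar (emb (gen w) D) = em hw D := emb_eq hw D
  unfold ED curve Cu ca cb WeierstrassCurve.Affine.baseChange WeierstrassCurve.toAffine
  ext
  · exact map_zero _
  · show algebraMap (K w) QBar (3 * (1 - gen w) * emb (gen w) D) = _
    rw [map_mul, map_mul, map_sub, map_one, map_ofNat, h1, h2]
  · exact map_zero _
  · show algebraMap (K w) QBar (gen w ^ 4 * emb (gen w) D ^ 2) = _
    rw [map_mul, map_pow, map_pow, h1, h2]
  · exact map_zero _

/-- the points of equal curves -/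
noncomputable def tr {W W' : Affine QBar} (h : W = W') : W.Point ≃+ W'.Point := by
  subst h
  exact AddEquiv.refl _

lemma tr_some {W W' : Affine QBar} (h : W = W') {a b : QBar} (hab : W.Nonsingular a b) :
    tr h (.some a b hab) = .some a b (h ▸ hab) := by
  subst h
  rfl

lemma tr_act (h : WD w (em hw D)) (fx : ∀ σ : Gal w, Pool.Agent.R384.Fx w (em hw D)
    (Pool.Agent.R384.rh σ)) (σ : Gal w) (P : Pts w D) :
    tr (curve_eq hw) (act σ P) = Pool.Agent.R384.act h fx σ (tr (curve_eq hw) P) := by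
  rcases P with _ | ⟨a, b, hab⟩
  · show tr (curve_eq hw) (act σ 0) = Pool.Agent.R384.act h fx σ (tr (curve_eq hw) 0)
    simp only [map_zero]
  · rw [tr_some (curve_eq hw) hab]
    exact tr_some (curve_eq hw) (a := σ.toAlgHom a) (b := σ.toAlgHom b)
      ((Affine.baseChange_nonsingular (ED w D).toAffine σ.toAlgHom.injective ..).mpr hab)

lemma elliptic (hD : D ≠ 0) (hw : w ^ 2 = w - 2) : (ED w D).IsElliptic := by
  have hg := gen_sq.2 hw
  have hg0 : gen w ≠ 0 := by
    intro h
    rw [h] at hg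
    norm_num at hg
  have hg1 : 1 - gen w ≠ 0 := by
    intro h
    have h1 : gen w = 1 := (sub_eq_zero.1 h).symm
    rw [h1] at hg
    norm_num at hg
  have hd : (emb (gen w) D : K w) ≠ 0 := by
    intro h
    have h1 := emb_eq hw D
    rw [h] at h1
    exact hD (Pool.Agent.R384.em_inj hw h1.symm)
  rw [WeierstrassCurve.isElliptic_iff, isUnit_iff_ne_zero]
  have e : (ED w D).Δ = 16 * (gen w ^ 4 * emb (gen w) D ^ 2) ^ 2 *
      ((1 - gen w) ^ 8 * emb (gen w) D ^ 2) := by
    simp only [ED, curve, WeierstrassCurve.Δ, WeierstrassCurve.b₂, WeierstrassCurve.b₄,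
      WeierstrassCurve.b₆, WeierstrassCurve.b₈]
    generalize emb (gen w) D = d at *
    generalize gen w = g at *
    have h2 : (1 - g) ^ 2 = -1 - g := by linear_combination hg
    have h4 : (1 - g) ^ 4 = 3 * g - 1 := by
      have : (1 - g) ^ 4 = ((1 - g) ^ 2) ^ 2 := by ring
      rw [this, h2]
      linear_combination hg
    have h8 : (1 - g) ^ 8 = 3 * g - 17 := by
      have : (1 - g) ^ 8 = ((1 - g) ^ 4) ^ 2 := by ring
      rw [this, h4]
      linear_combination 9 * hg
    have g4 : g ^ 4 = 2 - 3 * g := by linear_combination (g ^ 2 + g - 1) * hg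
    rw [h8]
    have e1 : 9 * (1 - g) ^ 2 - 4 * g ^ 4 = 3 * g - 17 := by
      rw [h2, g4]; ring
    rw [← e1]
    ring
  rw [e]
  exact mul_ne_zero (mul_ne_zero (by norm_num) (pow_ne_zero _ (mul_ne_zero (pow_ne_zero _ hg0)
    (pow_ne_zero _ hd)))) (mul_ne_zero (pow_ne_zero _ hg1) (pow_ne_zero _ hd))

/-! ### The isomorphism -/

lemma gen_iso {F : Type} [Field F] [CharZero F] {g d : F} (hg : g ^ 2 = g - 2) :
    (⟨Units.mk0 (1 / 2 : F) (by norm_num), -((g + 2) * d / 4), -(1 / 2), (g + 2) * d / 8⟩ :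
      VariableChange F) • (⟨1, -((3 * d + 1) / 4), 0, -2 * d ^ 2, -d ^ 3⟩ : WeierstrassCurve F) =
      ⟨0, 3 * (1 - g) * (d - 2 * d * g), 0, g ^ 4 * (d - 2 * d * g) ^ 2, 0⟩ := by
  have hu : (((Units.mk0 (1 / 2 : F) (by norm_num))⁻¹ : Fˣ) : F) = 2 := by
    simp
  ext
  · simp only [variableChange_a₁, hu]
    norm_num
  · simp only [variableChange_a₂, hu]
    linear_combination (-6 * d) * hg
  · simp only [variableChange_a₃, hu]
    ring
  · simp only [variableChange_a₄, hu]
    linear_combination ((-4 * g ^ 4 + 7 * g ^ 2 + 7 * g - 4) * d ^ 2) * hg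
  · simp only [variableChange_a₆, hu]
    linear_combination ((-g - 10) * d ^ 3) * hg

lemma s7_eq : (2 * om - 1 : OK) = Pool.Agent.R384.s7 := rfl

lemma e_iso (hw : w ^ 2 = w - 2) (D : OK) : Iso (E w D) (ED w (tw D)) := by
  have hg := gen_sq.2 hw
  have hemb : (emb (gen w) (tw D) : K w) =
      emb (gen w) D - 2 * emb (gen w) D * gen w := by
    have h1 : tw D = ⟨D.re + 4 * D.im, -2 * D.re - D.im⟩ := by
      unfold tw
      rw [s7_eq]
      ext
      · simp [Pool.Agent.R384.s7]
        ring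
      · simp [Pool.Agent.R384.s7]
        ring
    rw [h1]
    unfold emb
    push_cast
    linear_combination (2 * (D.im : K w)) * hg
  refine ⟨_, Eq.trans (congrArg _ rfl) ((gen_iso (d := (emb (gen w) D : K w)) hg).trans ?_)⟩
  unfold ED curve
  rw [hemb]

lemma galL_eq {n : ℕ} (s : Fin n → QBar) : GalL w s = Pool.Agent.R384.fixs s Finset.univ := by
  ext σ
  unfold GalL
  rw [IntermediateField.mem_fixingSubgroup_iff]
  constructor
  · intro h i _
    exact h (s i) (IntermediateField.subset_adjoin _ _ ⟨i, rfl⟩)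
  · intro h x hx
    have h1 : IntermediateField.adjoin (K w) (Set.range s) ≤
        IntermediateField.fixedField (Pool.Agent.R384.fixs s Finset.univ) := by
      rw [IntermediateField.adjoin_le_iff]
      rintro _ ⟨i, rfl⟩
      rw [SetLike.mem_coe, IntermediateField.mem_fixedField_iff]
      intro f hf
      exact hf i (Finset.mem_univ i)
    exact (IntermediateField.mem_fixedField_iff _ x).1 (h1 hx) σ h

/-- the transfer -/
lemma selmer_of {v : Pool.Agent.R384.OO} {χ : Chr w} {H : Sub w} {m : ℕ}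
    (h : Pool.Agent.H848.BKD.DimLe hw v χ H m) {v' : QBar}
    (hv : Pool.Agent.R384.em hw v = v') : SelmerDimLE v' H χ m := by
  intro c hc
  obtain ⟨a, ha, y, hy⟩ := h c fun i => ⟨⟨(hc i).1.cont, (hc i).1.mul⟩,
    fun p _ ι hp => (hc i).2.odd p ι hp, fun ι hι => by
      rw [hv] at hι
      exact (hc i).2.two ι hι⟩
  exact ⟨a, ha, y, fun σ _ h => hy σ h⟩

lemma tw_eq (D : OK) : tw D = -(Pool.Agent.R384.s7 * D) := rfl

lemma s7_ne : Pool.Agent.R384.s7 ≠ 0 := by
  intro h
  have := congrArg QuadraticAlgebra.re h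
  simp [Pool.Agent.R384.s7] at this

lemma tw_ne {D : OK} (hD : D ≠ 0) : tw D ≠ 0 := by
  rw [tw_eq]
  exact neg_ne_zero.2 (mul_ne_zero s7_ne hD)

lemma matrix_eq (P : Finset OK) : matrix P = Pool.Agent.H463.QE.MP P := by
  ext p q
  unfold matrix Pool.Agent.H463.QE.MP
  rw [Matrix.of_apply, Matrix.of_apply]
  have h1 : ∀ x y : OK, symbol x y = Pool.Agent.H463.QE.ns x y := fun x y => rfl
  by_cases h : p = q
  · rw [if_pos h, if_pos h]
    simp only [h1]
    exact congrArg _ (Finset.sum_congr (Pool.Agent.H848.BKD.erase_inst _ _ _ _) fun _ _ => rfl)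
  · rw [if_neg h, if_neg h, h1]

lemma corank_iff (D : OK) (r : ℕ) : Corank D r ↔ Pool.Agent.H848.BKD.Ck D r := by
  unfold Corank Pool.Agent.H848.BKD.Ck
  simp only [matrix_eq]
  rfl

lemma adm_iff (D : OK) : Adm D ↔ Pool.Agent.H848.BKD.Ad D := Iff.rfl

lemma evenMatrix_eq (P : Finset OK) : evenMatrix P = Pool.Agent.H848.BKD.EM P := by
  have h1 : ∀ x y : OK, symbol x y = Pool.Agent.R384.qs x y := fun x y =>
    (show symbol x y = Pool.Agent.H463.QE.ns x y from rfl).trans (Pool.Agent.H848.BKD.ns_qs x y)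
  have hA : classA P = Pool.Agent.H848.BKD.Xs P := Finset.sum_congr rfl fun p _ => h1 p _
  have hB : classB P = Pool.Agent.H848.BKD.Ys P := Finset.sum_congr rfl fun p _ => h1 p _
  ext i k
  rcases i with _ | p
  · rcases k with _ | q
    · show 1 + classA P * classB P = 1 + Pool.Agent.H848.BKD.Xs P * Pool.Agent.H848.BKD.Ys P
      rw [hA, hB]
    · show symbol (q : OK) (-om) + classA P * symbol (q : OK) (-1) =
        Pool.Agent.R384.qs q (-om) + Pool.Agent.H848.BKD.Xs P * Pool.Agent.R384.qs q (-1)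
      rw [h1, h1, hA]
  · rcases k with _ | q
    · show symbol (p : OK) (om - 1) + classB P * symbol (p : OK) (-1) =
        Pool.Agent.R384.qs p (om - 1) + Pool.Agent.H848.BKD.Ys P * Pool.Agent.R384.qs p (-1)
      rw [h1, h1, hB]
    · show (if (p : OK) = q then ∑ r ∈ P.erase (p : OK), symbol r (p : OK) else
        symbol (q : OK) (p : OK)) = if (p : OK) = q then 0 + ∑ r ∈ P.erase (p : OK),
          Pool.Agent.R384.qs r (p : OK) else Pool.Agent.R384.qs (q : OK) (p : OK)
      simp only [h1, zero_add]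

lemma evenCorank_iff (D : OK) (r : ℕ) : EvenCorank D r ↔ Pool.Agent.H848.BKD.Ek D r := by
  unfold EvenCorank Pool.Agent.H848.BKD.Ek
  simp only [evenMatrix_eq]
  rfl

/-- the dimensions -/
lemma main_w (hw : w ^ 2 = w - 2) (hD0 : D ≠ 0) : Bounded w D := by
  have hD := tw_ne hD0
  have h : Pool.Agent.R384.WD w (Pool.Agent.R384.em hw (tw D)) := ⟨hw, Pool.Agent.R384.em_ne hw hD⟩
  obtain ⟨r, hr⟩ : ∃ r : QBar, r ^ 2 = Pool.Agent.R384.em hw (tw D) :=
    IsAlgClosed.exists_pow_nat_eq _ (by norm_num)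
  obtain ⟨I, hI⟩ : ∃ I : QBar, I ^ 2 = -1 := IsAlgClosed.exists_pow_nat_eq _ (by norm_num)
  have fx : ∀ σ : Gal w, Pool.Agent.R384.Fx w (Pool.Agent.R384.em hw (tw D))
      (Pool.Agent.R384.rh σ) := fun σ =>
    ⟨Pool.Agent.Y715.Gi.gk_fix σ, Pool.Agent.R384.gk_em hw σ (tw D)⟩
  obtain ⟨κ, κ', x, y, kd, k8, hx, hy, ax, ay⟩ := Pool.Agent.NH57.BK.t_K8 hw hD h hr hI fx
  have td := Pool.Agent.R384.td h
  set T := tr (curve_eq hw (D := tw D)) with hT
  have hor : ∀ {p : ℕ} [Fact p.Prime] (ι : QBar →ₐ[ℚ] PadicAlgCl p) (s : QBar) (z : OK),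
      s ^ 2 = Pool.Agent.R384.em hw z → ∀ σ : Gal w, σ s = s ∨ σ s = -s := fun ι s z hs σ =>
    Pool.Agent.R384.rt_or hw hs σ
  have hIr : (I * r) ^ 2 = Pool.Agent.R384.em hw (-tw D) := by rw [mul_pow, hI, hr, map_neg]; ring
  refine ⟨κ, κ', ⟨⟨fun n => T.symm (y n), fun n => T.symm (x n), ⟨?_, ?_, ?_, ?_⟩,
    ⟨Units.continuous_val.comp kd.cont, fun σ => ?_⟩,
    ⟨Units.continuous_val.comp kd.cont', fun σ => ?_⟩⟩, ?_, ?_⟩, ?_⟩
  · show T.symm (y 0) = 0 ∧ T.symm (x 0) = 0
    rw [hx.zero, hy.zero, map_zero]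
    exact ⟨rfl, rfl⟩
  · intro n
    show T.symm (y (n + 1)) + T.symm (y (n + 1)) = T.symm (y n) ∧
      T.symm (x (n + 1)) + T.symm (x (n + 1)) = T.symm (x n)
    rw [← map_add, ← map_add, hx.dbl, hy.dbl]
    exact ⟨rfl, rfl⟩
  · intro n P hP
    have h1 : (2 ^ n : ℤ) • T P = 0 := by rw [← map_zsmul, hP, map_zero]
    obtain ⟨a, b, hab⟩ := Pool.Agent.R384.Tow.basis td hx hy h1
    refine ⟨b, a, ?_⟩
    apply T.injective
    show T P = T (b • T.symm (y n) + a • T.symm (x n))
    rw [map_add, map_zsmul, map_zsmul, T.apply_symm_apply, T.apply_symm_apply, hab, add_comm]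
  · intro n a b hab
    have h1 : T (a • T.symm (y n) + b • T.symm (x n)) = 0 := by
      show T ((fun n => a • T.symm (y n) + b • T.symm (x n)) n) = 0
      rw [show (fun n => a • T.symm (y n) + b • T.symm (x n)) n = 0 from hab, map_zero]
    rw [map_add, map_zsmul, map_zsmul, T.apply_symm_apply, T.apply_symm_apply, add_comm] at h1
    exact (Pool.Agent.R384.Tow.uniq td hx hy h1).symm
  · intro n k hk
    show act σ (T.symm (y n)) = k • T.symm (y n)
    apply T.injective
    rw [hT, tr_act hw h fx σ, ← hT, T.apply_symm_apply, map_zsmul, T.apply_symm_apply]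
    exact ay σ n k hk
  · intro n k hk
    show act σ (T.symm (x n)) = k • T.symm (x n)
    apply T.injective
    rw [hT, tr_act hw h fx σ, ← hT, T.apply_symm_apply, map_zsmul, T.apply_symm_apply]
    exact ax σ n k hk
  · rintro p _ ι hn σ ⟨τ, hτ, hin⟩
    have h1 := kd.inert p ι τ σ hτ hin hn
    unfold zv
    rcases hor ι _ _ hIr σ with h2 | h2
    · rw [h1.1 h2, Units.val_one, one_pow]
    · rw [h1.2 h2, Units.val_neg, Units.val_one, neg_one_sq]
  · rintro p _ ι hn σ ⟨τ, hτ, hin⟩
    have h1 := kd.inert' p ι τ σ hτ hin hn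
    unfold zv
    rcases hor ι _ _ hr σ with h2 | h2
    · rw [h1.1 h2, Units.val_one, one_pow]
    · rw [h1.2 h2, Units.val_neg, Units.val_one, neg_one_sq]
  · intro n d m hc s hs k _ hk
    have hom : Pool.Agent.R384.em hw Pool.Agent.R384.om = w := by
      rw [Pool.Agent.R384.em_apply]
      simp [Pool.Agent.R384.om]
    have hom' : Pool.Agent.R384.em hw (1 - Pool.Agent.R384.om) = 1 - w := by
      rw [map_sub, map_one, hom]
    have hk' : Odd (1 - k) := by
      obtain ⟨c, hc1⟩ := hk
      exact ⟨-c, by omega⟩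
    have hE : ∀ i, s i ^ 2 = Pool.Agent.R384.em hw (d i) := by
      intro i
      rw [hs i, Pool.Agent.R384.em_apply]
      rfl
    have hE0 : ∀ i, d i ≠ 0 := by
      intro i h1
      obtain ⟨M, z, hz, hM, -, he⟩ := hc {i}
      rw [Finset.prod_singleton, h1, mul_zero] at he
      rcases mul_eq_zero.1 he.symm with h2 | h2
      · exact hM.1.ne_zero (by rw [h2, mul_zero])
      · exact hz (pow_eq_zero_iff (two_ne_zero) |>.1 h2)
    have hgood : ∀ T : Finset (Fin n), ∃ (S : Finset OK) (z : OK),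
        (∃ x y : ZMod 2, Pool.Agent.H848.BKD.PX x y S ∧ Pool.Agent.H848.BKD.crkX x y S = m T) ∧
        z ≠ 0 ∧ tw D * ∏ i ∈ T, d i = -(Pool.Agent.R384.s7 * ∏ q ∈ S, q) * z ^ 2 := by
      intro T
      obtain ⟨M, z, hz, hM, hr, he⟩ := hc T
      obtain ⟨S, hS, hprod, hcr⟩ := Pool.Agent.H848.BKD.ek_crk ((adm_iff M).1 hM)
        ((evenCorank_iff M _).1 (hr.1 rfl))
      refine ⟨S, z, ⟨_, _, hS, hcr⟩, hz, ?_⟩
      rw [hprod, tw_eq]
      linear_combination (-Pool.Agent.R384.s7) * he
    rw [galL_eq]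
    have key : ∀ (j : ℤ) (ϖ : OK), ((Even j ∧ ϖ = 1 - Pool.Agent.R384.om) ∨
        (Odd j ∧ ϖ = Pool.Agent.R384.om)) → Pool.Agent.H848.BKD.DimLe hw ϖ
          (κ ^ j * κ' ^ (1 - j)) (Pool.Agent.R384.fixs s Finset.univ) (∑ T, m T) := by
      intro j ϖ hj
      exact Pool.Agent.H848.BKD.dim_mq hw
        (P := fun S n => ∃ x y : ZMod 2, Pool.Agent.H848.BKD.PX x y S ∧
          Pool.Agent.H848.BKD.crkX x y S = n)
        (fun κ κ' S r I n hSn kd k8 => by
          obtain ⟨x, y, hS, hcr⟩ := hSn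
          rw [← hcr]
          exact Pool.Agent.H848.BKD.dim_two hw hS kd k8 j hj) hE kd k8 hD hE0 hgood
    exact ⟨selmer_of hw (key k _ (Or.inl ⟨hk, rfl⟩)) hom',
      selmer_of hw (key (1 - k) _ (Or.inr ⟨hk', rfl⟩)) hom⟩

/-- the descent -/
lemma noTwo_iff (hw : w ^ 2 = w - 2) (hD : Adm D) : NoTwoPart (E w D) ↔ Corank D 0 := by
  obtain ⟨e, he⟩ := Pool.Agent.H848.BKD.exists_psi hw
  obtain ⟨S, hS, hprod, hf, hDe⟩ := Pool.Agent.H848.BKD.exists_ps hD
  obtain ⟨J, hJ⟩ := hD.2
  have hJ1 : D = 1 + 4 * J := by linear_combination hJ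
  have hJ' : Pool.Agent.H848.BKD.phi D = 1 + 4 * Pool.Agent.H848.BKD.phi J := by
    rw [hJ1, map_add, map_one, map_mul, map_ofNat]
  have hsq : Squarefree (Pool.Agent.Y698.fR * Pool.Agent.H848.BKD.phi D) := by
    rw [← Pool.Agent.H848.BKD.phi_s7, ← map_mul]
    intro x hx
    obtain ⟨x, rfl⟩ := Pool.Agent.H848.BKD.phi.surjective x
    rw [← map_mul, Pool.Agent.H848.BKD.phi_dvd] at hx
    exact (MulEquiv.isUnit_map Pool.Agent.H848.BKD.phi.toMulEquiv).2 (hD.1 x hx)
  obtain ⟨h1, -⟩ := Pool.Agent.H463.QE.fullX e hsq hJ' hf hDe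
  rw [Pool.Agent.H848.BKD.det_iff hS hf hDe] at h1
  have hP := (Pool.Agent.H848.BKD.isP_iff hS hf hDe _).2 rfl
  have h2 : Corank D 0 ↔ Pool.Agent.H848.BKD.crk S = 0 := by
    rw [corank_iff, Pool.Agent.H848.BKD.ck_iff hP, Pool.Agent.H848.BKD.cork_eq hS]
    exact eq_comm
  have h3 : E w D = Pool.Agent.Y698.EX (K w)
      (Pool.Agent.R426.QC.em e (Pool.Agent.H848.BKD.phi J)) := by
    have h4 : (Pool.Agent.R426.QC.em e (Pool.Agent.H848.BKD.phi J) : K w) = emb (gen w) J := by
      apply Subtype.ext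
      rw [emb_eq hw]
      exact he J
    have h5 : (emb (gen w) D : K w) = 1 + 4 * emb (gen w) J := by
      apply Subtype.ext
      push_cast
      rw [emb_eq hw, emb_eq hw, hJ1, map_add, map_one, map_mul, map_ofNat]
      rfl
    unfold E twist Pool.Agent.Y698.EX
    rw [h4, h5]
    congr 1
    field_simp
    ring
  rw [h2, h3]
  exact h1.symm

lemma selmer_mono {v : QBar} {H : Sub w} {χ : Chr w} {m m' : ℕ} (h : SelmerDimLE v H χ m)
    (hm : m ≤ m') : SelmerDimLE v H χ m' := by
  intro c hc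
  have hle : m + 1 ≤ m' + 1 := Nat.succ_le_succ hm
  obtain ⟨a, ha, y, hy⟩ := h (fun i => c (Fin.castLE hle i)) fun i => hc _
  have hinj : Function.Injective (Fin.castLE hle) := Fin.castLE_injective hle
  refine ⟨fun i => if h : ∃ i', Fin.castLE hle i' = i then a h.choose else 0, ?_, y, fun σ hσ hσ' => ?_⟩
  · intro h0
    apply ha
    funext i
    have h1 := congrFun h0 (Fin.castLE hle i)
    simp only [Pi.zero_apply] at h1 ⊢
    have hex : ∃ i', Fin.castLE hle i' = Fin.castLE hle i := ⟨i, rfl⟩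
    rw [dif_pos hex, hinj hex.choose_spec] at h1
    exact h1
  · rw [← hy σ hσ hσ', Finset.sum_apply, Finset.sum_apply]
    symm
    refine Finset.sum_bij_ne_zero (fun i _ _ => Fin.castLE hle i) (fun _ _ _ => Finset.mem_univ _)
      (fun i _ _ j _ _ hij => hinj hij) ?_ ?_
    · intro i _ hi
      by_cases hex : ∃ i', Fin.castLE hle i' = i
      · obtain ⟨i', rfl⟩ := hex
        refine ⟨i', Finset.mem_univ _, ?_, rfl⟩
        have hex : ∃ i'', Fin.castLE hle i'' = Fin.castLE hle i' := ⟨i', rfl⟩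
        simp only [Pi.smul_apply] at hi ⊢
        rw [dif_pos hex, hinj hex.choose_spec] at hi
        exact hi
      · exfalso
        apply hi
        simp only [Pi.smul_apply]
        rw [dif_neg hex, zero_smul]
    · intro i _ _
      have hex : ∃ i', Fin.castLE hle i' = Fin.castLE hle i := ⟨i, rfl⟩
      simp only [Pi.smul_apply]
      rw [dif_pos hex, hinj hex.choose_spec]

/-- the formula -/
lemma twoDescent_of (hw : w ^ 2 = w - 2) (hD : Adm D) {r : ℕ} (hr : Corank D r) :
    TwoDescent (E w D) r := by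
  obtain ⟨e, he⟩ := Pool.Agent.H848.BKD.exists_psi hw
  obtain ⟨J, hJ⟩ := hD.2
  have hJ1 : D = 1 + 4 * J := by linear_combination hJ
  have h3 : E w D = Pool.Agent.Y698.EX (K w)
      (Pool.Agent.R426.QC.em e (Pool.Agent.H848.BKD.phi J)) := by
    have h4 : (Pool.Agent.R426.QC.em e (Pool.Agent.H848.BKD.phi J) : K w) = emb (gen w) J := by
      apply Subtype.ext
      rw [emb_eq hw]
      exact he J
    have h5 : (emb (gen w) D : K w) = 1 + 4 * emb (gen w) J := by
      apply Subtype.ext
      push_cast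
      rw [emb_eq hw, emb_eq hw, hJ1, map_add, map_one, map_mul, map_ofNat]
      rfl
    unfold E twist Pool.Agent.Y698.EX
    rw [h4, h5]
    congr 1
    field_simp
    ring
  rw [h3]
  exact Pool.Agent.H848.SF.sel_ck e hD hJ1 ((corank_iff D r).1 hr)

lemma norm_nrm (D : OK) : (QuadraticAlgebra.norm D).natAbs = Pool.Agent.H519.Q7.nrm D := by
  have h1 := Pool.Agent.H519.Q7.nrm_cast D
  have h2 : QuadraticAlgebra.norm D = (Pool.Agent.H519.Q7.nrm D : ℤ) := by
    rw [h1, QuadraticAlgebra.norm_def]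
    unfold Pool.Agent.R384.nn
    ring
  rw [h2, Int.natAbs_natCast]

lemma count_eq (m : OK) (G : OK → Prop) (X : ℕ) : count m G X = Pool.Agent.H848.FL.cnt m G X := by
  unfold count Pool.Agent.H848.FL.cnt
  simp only [norm_nrm]
  rfl

lemma density_iff (m : OK) (G : OK → Prop) (y : ℝ) :
    Density m G y ↔ Pool.Agent.H848.FL.Dn m G y := by
  unfold Density Pool.Agent.H848.FL.Dn
  simp only [count_eq]

lemma law_c2 (k : ℕ) : law k = Pool.Agent.H848.FL.law Pool.Agent.NH57.BL.c2 k :=
  (Pool.Agent.H848.FL.law_eq k).symm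

lemma coranks_iff (D : OK) {n : ℕ} (d : Fin n → OK) (b : Finset (Fin n) → Bool)
    (r : Finset (Fin n) → ℕ) : Coranks D d b r ↔
    ∀ T, Pool.Agent.H848.FL.Twk
      (if b T = true then Pool.Agent.H848.BKD.Ek else Pool.Agent.H848.BKD.Ck) D d T (r T) := by
  unfold Coranks Pool.Agent.H848.FL.Twk KindCorank
  refine forall_congr' fun T => ?_
  simp only [corank_iff, evenCorank_iff]
  cases b T
  · simp only [Bool.false_eq_true, false_implies, true_and, forall_const, if_false]
    rfl
  · simp only [Bool.true_eq_false, false_implies, and_true, forall_const, if_true]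
    rfl

lemma kd_of (b : Bool) : Pool.Agent.H848.FL.Kd
    (if b = true then Pool.Agent.H848.BKD.Ek else Pool.Agent.H848.BKD.Ck) := by
  cases b
  · exact Pool.Agent.H848.FL.Kd.odd (if_neg (by simp))
  · exact Pool.Agent.H848.FL.Kd.even (if_pos rfl)

lemma laws (n : ℕ) (d : Fin n → OK) (h : Independent d) : Laws d := by
  have hcl : Pool.Agent.H848.FL.Cl d := ⟨h.1, h.2⟩
  have hs : ∀ m : ℕ, Density (∏ i, d i) (fun D => ∃ r, Coranks D d (fun _ => true) r ∧ ∑ T, r T = m)
      (sumLaw n m) := by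
    intro m
    rw [density_iff]
    have h1 := Pool.Agent.H848.FL.sums hcl (Pool.Agent.H848.FL.Kd.even rfl) m
    simp only [coranks_iff, sumLaw, law_c2, if_true]
    exact h1
  refine ⟨fun b r => ?_, hs, fun w m hw => ?_⟩
  · rw [density_iff]
    have h1 := Pool.Agent.H848.FL.joint hcl
      (fun T => if b T = true then Pool.Agent.H848.BKD.Ek else Pool.Agent.H848.BKD.Ck)
      (fun T => kd_of (b T)) r
    simp only [coranks_iff, law_c2]
    exact h1
  · -- the union of the first cases
    have h1 : Pool.Agent.H848.FL.Dn (∏ i, d i)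
        (fun D => ∃ j ∈ Finset.range (m + 1), ∃ r, Coranks D d (fun _ => true) r ∧ ∑ T, r T = j)
        (∑ j ∈ Finset.range (m + 1), sumLaw n j) := by
      refine Pool.Agent.H848.FL.dn_union _ (fun j D => ∃ r, Coranks D d (fun _ => true) r ∧ ∑ T, r T = j) _ ?_
        fun j _ => (density_iff _ _ _).1 (hs j)
      rintro j _ j' _ hne D hD hc ⟨r, hr, h2⟩ ⟨r', hr', h2'⟩
      rw [coranks_iff] at hr hr'
      simp only [if_true] at hr hr'
      apply hne
      rw [← h2, ← h2']
      exact Finset.sum_congr rfl fun T _ => Pool.Agent.H848.FL.twk_uni hcl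
        (Pool.Agent.H848.FL.Kd.even rfl) hD hc (hr T) (hr' T)
    intro ε hε
    have h2 := (tendsto_order.1 h1).1 _ (sub_lt_self _ hε)
    filter_upwards [h2] with X hX
    refine hX.le.trans ?_
    rw [← count_eq, ← count_eq]
    refine div_le_div_of_nonneg_right ?_ (Nat.cast_nonneg _)
    norm_cast
    rw [count_eq, count_eq]
    refine Pool.Agent.H848.FL.cnt_mono ?_ X
    rintro D hA ⟨j, hj, r, hr, hsum⟩
    have hD0 : D ≠ 0 := by
      rintro rfl
      exact hA.1.ne_zero (mul_zero _)
    obtain ⟨κ, κ', ht, hb⟩ := main_w (D := D) hw hD0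
    refine ⟨κ, κ', ht, fun s hsr k hk hk' => ?_⟩
    have h3 := hb n d r hr s hsr k hk hk'
    rw [Finset.mem_range] at hj
    rw [hsum] at h3
    exact ⟨selmer_mono h3.1 (by omega), selmer_mono h3.2 (by omega)⟩

end proof

/-- **Main theorem.** For every parameter `D` the number `r'(D)` is well defined, and it bounds the
dimensions of the Bloch–Kato Selmer groups of all even weights, for both embeddings of `K` in `ℚ̄`. It is at
most `r(D) + 1`, and `r(D)` is half the `2`-Selmer rank of `E_D/K`. When all the parameters are ordered by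
their norms, `r'` has the law of Cohen and Lenstra, and the numbers `r` or `r'` of the twists by independent
parameters are independent. The last part is the distribution of `r'` for the twists by primes. -/
theorem result :
    (∀ D : OK, Adm D → (∃! r : ℕ, EvenCorank D r) ∧ Compare D) ∧
    (∀ (w : QBar) (D : OK), w ^ 2 = w - 2 → Adm D → Descent w D ∧ Bounded w D) ∧
    (∀ (n : ℕ) (d : Fin n → OK), Independent d → Laws d) ∧
    (0.288 < law 0 ∧ 0.864 < law 0 + law 1 ∧ 0.992 < law 0 + law 1 + law 2) ∧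
    ∀ (D : OK) (P : Finset OK), Adm D → IsPrimes D P → Distribution D P := by
  refine ⟨fun D hD => ⟨?_, fun r r' h h' => ?_⟩, fun w D hw hD => ⟨⟨e_iso hw D, elliptic (tw_ne ?_) hw,
    fun r hr => twoDescent_of hw hD hr, noTwo_iff hw hD⟩, main_w hw ?_⟩, laws, ?_,
    fun D P hD hP => ⟨Pool.Agent.H848.BKD.NE P, ?_, fun r => ?_⟩⟩
  · simp only [evenCorank_iff]
    exact Pool.Agent.H848.BKD.ek_unique hD
  · exact Pool.Agent.H848.BKD.ek_le (D := D) hD ((corank_iff D r).1 h) ((evenCorank_iff D r').1 h')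
  · rintro rfl
    exact hD.1.ne_zero (mul_zero _)
  · rintro rfl
    exact hD.1.ne_zero (mul_zero _)
  · simp only [law_c2]
    exact Pool.Agent.H848.FL.law_num
  · exact Pool.Agent.H848.BKD.odd_NE (D := D) hD hP
  · have h1 := Pool.Agent.H848.BKD.dist_ek (D := D) hD hP r
    refine h1.congr fun X => ?_
    unfold proportion
    simp only [evenCorank_iff]

end Pool.Agent.Results.MP_009fd8_ag.EvenWeightsLaw
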