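import Pool.Agent.H367.OS.GWu
import Pool.Graph.R_pool_sql_team_seeded_2aa45f1a.Results.MP_009fd8_ag.SelmerCubics

/-!
# Abel-Jacobi maps onto Bloch-Kato Selmer groups and one sequence of cubics

A relation `r` of size `m` is one of the equations `x_i x_j = x_l`, `x_i + x_j = x_l`, `x_i = 1` with
`i, j, l < m`; the relations are numbered, the number of `r` is `ν(r)` (`relNum`). Let `G_m` be the
following polynomial with integral coefficients (`univG ℤ m`). There are variables `x_i` and `z_ij` for
`i, j < m`, a variable `c_r` for every relation `r`, and variables `y_{r,l}` for all relations `r` and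
`l < (m + 1) 2 ^ ν(r)`. The equations (`eqnG`) are

  `z_ij - x_i x_j`,  `c_r ^ 2 - c_r`,  `c_r ρ_r`,  `(1 - c_r) y_{r,l}`,

where `ρ_r` is the linear polynomial `z_ij - x_l`, `x_i + x_j - x_l` or `x_i - 1` of the relation.
`G_m` is the sum of the equations multiplied by further variables `t_e`, one for each equation. It has
degree three. Let `C_m` be the affine cubic hypersurface `G_m = 1` (`cubG R m` over the ring `R`); it is
smooth over the integers.

Let `p` be a prime number. For a smooth projective scheme `Y` over `ℚ` and an integer `n` let
`A^n(Y) = CH^n(Y)^0 ⊗ ℚ_p`, where `CH^n(Y)^0` is the `ℚ`-vector space of homologically trivial cycles of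
codimension `n`, and `B^n(Y) = H^1_f(ℚ, H^{2n-1}(Y_ℚ̄, ℚ_p)(n))`. Both are additive functors of Chow
motives over `ℚ`, and the `p`-adic Abel-Jacobi map is a map `A^n(Y) → B^n(Y)` (the image is contained in
the Bloch-Kato Selmer group: Nekovář, Nizioł, Saito). Let `AJ (C p) n Y` be the statement that it is an
isomorphism. If it is true for all smooth projective `Y` over `ℚ`, all `n` and all `p`, then
question Q1 is true for all number fields `K`: a smooth projective scheme over `K` is a smooth
projective scheme over `ℚ` (restriction of the base field, Shapiro's lemma), and the Abel-Jacobi map of a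
polarized Chow motive `M = (Y, e, n)` of weight `-1` is a direct factor of the one for `Y` and `n`. For
`n = 1` the statement is that the `p`-primary part of the Tate-Shafarevich group of `Pic^0_{red}(Y)` is
finite.

For a separated scheme `X` of finite type over `ℚ` let `W(X)` be its weight complex (Gillet, Soulé), and
`A^{n,i}(X) = H^i(A^n(W(X)))`, `B^{n,i}(X) = H^i(B^n(W(X)))`. `AJ (C p) n X` says that the maps
`A^{n,i}(X) → B^{n,i}(X)` are isomorphisms for the given `n` and all `i`; for smooth projective `X` this
is the statement above.

**Theorem.** Let `E_m` be the number of the equations, and for `N ∈ ℕ` let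
`idx m n N = n + (m + 1) N + E_m - 1`. Let `p` be a prime number.

(1) For every `n ≥ 0`, the Abel-Jacobi maps `A^n(Y) → B^n(Y)` are isomorphisms for all smooth projective
`Y` over `ℚ` if and only if the maps `A^{idx m n N, i}(C_m) → B^{idx m n N, i}(C_m)` are isomorphisms for
all `N` and `i`, for infinitely many `m`. The case `n = 1` is the finiteness of the `p`-primary parts of
the Tate-Shafarevich groups of all abelian varieties over all number fields.

(2) All of these maps, for all `n`, are isomorphisms if and only if for infinitely many `m` the maps
`A^{n,i}(C_m) → B^{n,i}(C_m)` are isomorphisms for all `n` and `i`.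

(3) The hypersurfaces `C_m` decide the statements (`Decides`): for every affine scheme `Spec B` of finite
type over `ℚ` and all large `m` there is an `N` such that for `0 ≤ n ≤ m` the statement with the index
`n` for `Spec B` is equivalent to the one with the index `idx m n N` for `C_m`; and for every separated
scheme `X` of finite type and all large `m`, the statements for `C_m` imply the statements for `X`.

(4) `G_m` has integral coefficients and degree at most three, and `C_m` is smooth over all rings.

The hypotheses are standard: localisation sequences, affine bundles and products with `𝔾_m`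
(`IsWeightPair`); the weight complex of a scheme of dimension at most `d` consists of direct factors of
motives of smooth projective varieties of dimension at most `d`, so that the groups vanish outside of
the codimensions `0, …, d` (`PVanish`, `GenAt`).
The statement `AJ` is the one of the library's theorem `SelmerCubics`.

Idea of the proof. The projection of `C_m` to the affine space with the coordinates `x, z, c, y` is an
affine bundle over the complement of the zero set `W_m` of the equations. The scheme `W_m` is the
disjoint union, over all sets `s` of relations (`c_r = 1` for `r ∈ s` and `c_r = 0` for the others), of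
the products `X_s × 𝔸 ^ ((m + 1) N(s))`, where `X_s` is the affine scheme defined by the relations in
`s` and `N(s) = ∑_{r ∈ s} 2 ^ ν(r)`. The numbers `N(s)` are different, and the dimension of `X_s` is at
most `m`. So the invariant of `W_m` with the index `q + (m + 1) N(s)`, `0 ≤ q ≤ m`, is the invariant of
`X_s` with the index `q`; the other components do not contribute. Every affine scheme of finite type
over a prime field is an `X_s`, for all large `m`.

The universal system of relations is the one of helper854 (`Pool.Agent.H854.SQ`).
-/

set_option autoImplicit false

open CategoryTheory CategoryTheory.Limits AlgebraicGeometry Pool.Agent.Y116.UV Pool.Agent.Z125.UN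
  Pool.Agent.Q193.LT Pool.Agent.Q49.WU Pool.Agent.H854.SQ Pool.Agent.H367.OS
  Pool.Agent.Results.MP_009fd8_ag.SelmerCubics

universe w



namespace Pool.Agent.Results.MP_009fd8_ag.OneSequenceOverTheIntegers

/-- **Abel-Jacobi maps onto Bloch-Kato Selmer groups and one sequence of cubic hypersurfaces over the
integers.** See the explanations above; `point` is the trivial case of `Spec ℚ`, where all groups are
zero. -/
theorem result {p : ℕ} [Fact p.Prime] {C : PairData.{w} ℚ (ℤ × ℤ) ℚ_[p]} (weight : IsWeightPair C)
    (vanish : PVanish C Prod.fst) (generated : GenAt C Prod.fst) (point : BijAll C (aff ℚ ℚ)) :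
    (∀ n : ℕ, (∀ Y : Sch ℚ, SmoothProj Y → AJ C n Y) ↔
      ∃ᶠ m in Filter.atTop, ∀ N : ℕ, AJ C (idx m n N) (cubG ℚ m)) ∧
    ((∀ Y : Sch ℚ, SmoothProj Y → ∀ n : ℤ, AJ C n Y) ↔
      ∃ᶠ m in Filter.atTop, ∀ n : ℤ, AJ C n (cubG ℚ m)) ∧
    Decides (AJ C) ∧
    ∀ m : ℕ, (univG ℤ m).totalDegree ≤ 3 ∧
      ∀ (R : Type) [CommRing R], MvPolynomial.map (Int.castRingHom R) (univG ℤ m) = univG R m ∧
        Smooth (cubG R m).hom := by
  have hd : Decides (AJ C) :=
    decides_pair isPrimeField_rat generated weight graded_weight vanish point
  exact ⟨fun n => (hd.index n).out 1 0, hd.all.out 1 0, hd, cubG_facts⟩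

end Pool.Agent.Results.MP_009fd8_ag.OneSequenceOverTheIntegers
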